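import Pool.Agent.AMM.Ker

/-! Distance-regular graphs with a bipartite component in the graph of the vertices at maximal
distance. -/

set_option autoImplicit false
set_option linter.unusedSectionVars false
set_option linter.unusedFintypeInType false
set_option linter.unusedDecidableInType false

namespace Pool.Agent.AMM

open Finset Matrix

variable {V : Type} [Fintype V] [DecidableEq V] {G : SimpleGraph V} [DecidableRel G.Adj]

/-- two vertices with a common vertex at distance `d` -/
def St (G : SimpleGraph V) (d : ℕ) (x y : V) : Prop := ∃ w, G.dist x w = d ∧ G.dist w y = d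

/-- joined by a walk of even length in the distance-`d` graph -/
def EV (G : SimpleGraph V) (d : ℕ) : V → V → Prop := Relation.ReflTransGen (St G d)

lemma ex3 (hd : DR G) {x y x' y' : V} (e : G.dist x y = G.dist x' y') (w : V) :
    ∃ w', G.dist x' w' = G.dist x w ∧ G.dist w' y' = G.dist w y := by
  have h1 := hd x y x' y' e (G.dist x w) (G.dist y w)
  have h2 : 0 < (Finset.univ.filter
      (fun v => G.dist x v = G.dist x w ∧ G.dist y v = G.dist y w)).card :=
    Finset.card_pos.2 ⟨w, by simp⟩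
  rw [h1] at h2
  obtain ⟨w', hw'⟩ := Finset.card_pos.1 h2
  obtain ⟨_, h3, h4⟩ := Finset.mem_filter.1 hw'
  exact ⟨w', h3, by rw [G.dist_comm, h4, G.dist_comm]⟩

lemma pred (hc : G.Connected) {x y : V} {j : ℕ} (h : G.dist x y = j + 1) :
    ∃ x', G.Adj x x' ∧ G.dist x' y = j := by
  obtain ⟨p, hp⟩ := hc.exists_walk_length_eq_dist x y
  have hlen : p.length = j + 1 := by rw [hp, h]
  obtain ⟨x', hadj, q, hq⟩ : ∃ x', G.Adj x x' ∧ ∃ q : G.Walk x' y, q.length = j := by
    cases p with
    | nil => simp at hlen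
    | cons hadj q => exact ⟨_, hadj, q, by simpa using hlen⟩
  have h1 : G.dist x' y ≤ j := hq ▸ SimpleGraph.dist_le q
  have h2 : G.dist x y ≤ G.dist x x' + G.dist x' y := hc.dist_triangle
  have h3 : G.dist x x' = 1 := SimpleGraph.dist_eq_one_iff_adj.2 hadj
  exact ⟨x', hadj, by omega⟩

lemma EV_rad (hc : G.Connected) (hd : DR G) {d : ℕ} {x y : V} (h : EV G d x y) :
    ∀ x' y', G.dist x y = G.dist x' y' → EV G d x' y' := by
  induction h with
  | refl =>
    intro x' y' e
    rw [SimpleGraph.dist_self] at e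
    rw [hc.dist_eq_zero_iff.1 e.symm]
    exact Relation.ReflTransGen.refl
  | @tail w y _ h2 ih =>
    intro x' y' e
    obtain ⟨w', h3, h4⟩ := ex3 hd e w
    refine Relation.ReflTransGen.tail (ih x' w' h3.symm) ?_
    obtain ⟨v, hv1, hv2⟩ := h2
    obtain ⟨v', h5, h6⟩ := ex3 hd h4.symm v
    exact ⟨v', by rw [h5, hv1], by rw [h6, hv2]⟩

lemma EV_symm (hc : G.Connected) (hd : DR G) {d : ℕ} {x y : V} (h : EV G d x y) : EV G d y x :=
  EV_rad hc hd h y x G.dist_comm

lemma EV_alt {d : ℕ} {z : V → ℝ} (hz : Alt G d z) {x y : V} (h : EV G d x y) : z x = z y := by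
  induction h with
  | refl => rfl
  | tail _ h2 ih =>
    obtain ⟨w, h3, h4⟩ := h2
    rw [ih, hz _ _ h4, hz _ _ h3, neg_neg]

/-- every vertex has a vertex at the distance of a given pair -/
lemma exd (hd : DR G) (a b x : V) : ∃ y, G.dist x y = G.dist a b := by
  obtain ⟨y, h1, _⟩ := ex3 hd (x := a) (y := a) (x' := x) (y' := x)
    (by rw [SimpleGraph.dist_self, SimpleGraph.dist_self]) b
  exact ⟨y, h1⟩

/-- a nonzero alternating vector separates the vertices at distance `d` -/
lemma not_EV_d (hc : G.Connected) (hd : DR G) {d : ℕ} {z : V → ℝ} (hz : Alt G d z) {u : V}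
    (hu : z u ≠ 0) {x y : V} (hxy : G.dist x y = d) : ¬ EV G d x y := by
  intro h
  obtain ⟨v, hv⟩ := exd hd x y u
  have h1 := EV_alt hz (EV_rad hc hd h u v hv.symm)
  have h2 := hz u v (by rw [hv, hxy])
  apply hu
  linarith

section main

variable (hc : G.Connected) (hd : DR G) {d : ℕ} (hle : ∀ x y, G.dist x y ≤ d)
  {a b : V} (hab : G.dist a b = d) (hEd : ∀ x y, G.dist x y = d → ¬ EV G d x y)

include hc hd hab hEd in
/-- no adjacent vertices are joined by an even walk -/
lemma no1 {x y : V} (hxy : G.Adj x y) : ¬ EV G d x y := by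
  intro h
  have h1 : ∀ u v, G.Adj u v → EV G d u v := by
    intro u v huv
    refine EV_rad hc hd h u v ?_
    rw [SimpleGraph.dist_eq_one_iff_adj.2 hxy, SimpleGraph.dist_eq_one_iff_adj.2 huv]
  have h2 : ∀ u v, ∀ _ : G.Walk u v, EV G d u v := by
    intro u v p
    induction p with
    | nil => exact Relation.ReflTransGen.refl
    | cons hadj _ ih => exact Relation.ReflTransGen.trans (h1 _ _ hadj) ih
  obtain ⟨p⟩ := hc.preconnected a b
  exact hEd a b hab (h2 a b p)

include hc in
/-- in a graph with degrees at most two, a geodesic is determined by its first step -/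
lemma uniq (h3 : ∀ v u1 u2 u3, G.Adj v u1 → G.Adj v u2 → G.Adj v u3 → u1 = u2 ∨ u1 = u3 ∨ u2 = u3)
    (j : ℕ) : ∀ x p u u', G.Adj x p → G.dist x u = j + 1 → G.dist p u = j →
      G.dist x u' = j + 1 → G.dist p u' = j → u = u' := by
  induction j with
  | zero =>
    intro x p u u' _ _ h1 _ h2
    rw [← hc.dist_eq_zero_iff.1 h1, ← hc.dist_eq_zero_iff.1 h2]
  | succ j ih =>
    intro x p u u' hxp h1 h2 h1' h2'
    have hxp1 : G.dist x p = 1 := SimpleGraph.dist_eq_one_iff_adj.2 hxp
    obtain ⟨v, hv1, hv2⟩ := pred hc (x := u) (y := p) (j := j) (by rw [G.dist_comm, h2])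
    obtain ⟨v', hv1', hv2'⟩ := pred hc (x := u') (y := p) (j := j) (by rw [G.dist_comm, h2'])
    have key : ∀ t s : V, G.Adj t s → G.dist x t = j + 1 + 1 → G.dist s p = j →
        G.dist x s = j + 1 := by
      intro t s hts ht hs
      have e1 : G.dist x s ≤ G.dist x p + G.dist p s := hc.dist_triangle
      have e2 : G.dist x t ≤ G.dist x s + G.dist s t := hc.dist_triangle
      have e3 : G.dist s t = 1 := SimpleGraph.dist_eq_one_iff_adj.2 hts.symm
      have e4 : G.dist p s = j := by rw [G.dist_comm, hs]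
      omega
    have hv3 := key u v hv1 h1 hv2
    have hv3' := key u' v' hv1' h1' hv2'
    have hvv := ih x p v v' hxp hv3 (by rw [G.dist_comm, hv2]) hv3' (by rw [G.dist_comm, hv2'])
    subst hvv
    obtain ⟨t, ht1, ht2⟩ := pred hc (x := v) (y := x) (j := j) (by rw [G.dist_comm, hv3])
    rcases h3 v u u' t hv1.symm hv1'.symm ht1 with h4 | h4 | h4
    · exact h4
    · rw [← h4, G.dist_comm] at ht2
      omega
    · rw [← h4, G.dist_comm] at ht2
      omega

include hc hd hab hEd in
/-- if the degrees are at most two then there is one vertex at distance `d` -/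
lemma cyc (hd2 : 2 ≤ d) (hle : ∀ x y, G.dist x y ≤ d)
    (h3 : ∀ v u1 u2 u3, G.Adj v u1 → G.Adj v u2 → G.Adj v u3 → u1 = u2 ∨ u1 = u3 ∨ u2 = u3)
    {x y y' : V} (h1 : G.dist x y = d) (h2 : G.dist x y' = d) : y = y' := by
  by_contra hne
  obtain ⟨e, he⟩ : ∃ e, d = e + 1 := ⟨d - 1, by omega⟩
  obtain ⟨f, hf⟩ : ∃ f, e = f + 1 := ⟨e - 1, by omega⟩
  obtain ⟨p, hp1, hp2⟩ := pred hc (x := x) (y := y) (j := e) (by rw [h1, he])
  obtain ⟨q, hq1, hq2⟩ := pred hc (x := x) (y := y') (j := e) (by rw [h2, he])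
  have hpq : p ≠ q := by
    intro hpq
    rw [← hpq] at hq2
    exact hne (uniq hc h3 e x p y y' hp1 (by rw [h1, he]) hp2 (by rw [h2, he]) hq2)
  -- y has two neighbours
  have hcard := hd x x y y (by rw [SimpleGraph.dist_self, SimpleGraph.dist_self]) 1 1
  have h4 : 1 < (Finset.univ.filter (fun w => G.dist x w = 1 ∧ G.dist x w = 1)).card := by
    rw [Finset.one_lt_card]
    refine ⟨p, ?_, q, ?_, hpq⟩
    · simp [hp1]
    · simp [hq1]
  rw [hcard, Finset.one_lt_card] at h4
  obtain ⟨v1, hv1, v2, hv2, hv12⟩ := h4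
  have hv1' : G.Adj y v1 := SimpleGraph.dist_eq_one_iff_adj.1 (Finset.mem_filter.1 hv1).2.1
  have hv2' : G.Adj y v2 := SimpleGraph.dist_eq_one_iff_adj.1 (Finset.mem_filter.1 hv2).2.1
  have hdist : ∀ v, G.Adj y v → G.dist x v = e := by
    intro v hv
    have e1 : G.dist x y ≤ G.dist x v + G.dist v y := hc.dist_triangle
    have e2 : G.dist v y = 1 := SimpleGraph.dist_eq_one_iff_adj.2 hv.symm
    have e3 := hle x v
    have e4 : G.dist x v ≠ d := by
      intro h5
      refine no1 hc hd hab hEd hv (Relation.ReflTransGen.single ⟨x, ?_, h5⟩)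
      rw [G.dist_comm, h1]
    omega
  -- the neighbour v of y behind q gives the contradiction
  have hbad : ∀ v, G.Adj y v → G.dist q v = f → False := by
    intro v hv hqv
    have e1 : G.dist q y ≤ G.dist q v + G.dist v y := hc.dist_triangle
    have e2 : G.dist v y = 1 := SimpleGraph.dist_eq_one_iff_adj.2 hv.symm
    have e3 : G.dist x y ≤ G.dist x q + G.dist q y := hc.dist_triangle
    have e4 : G.dist x q = 1 := SimpleGraph.dist_eq_one_iff_adj.2 hq1
    exact hne (uniq hc h3 e x q y y' hq1 (by rw [h1, he]) (by omega) (by rw [h2, he]) hq2)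
  have hfirst : ∀ v, G.Adj y v → G.dist p v = f := by
    intro v hv
    obtain ⟨r, hr1, hr2⟩ := pred hc (x := x) (y := v) (j := f) (by rw [hdist v hv, hf])
    rcases h3 x p q r hp1 hq1 hr1 with h5 | h5 | h5
    · exact absurd h5 hpq
    · rw [h5]
      exact hr2
    · exfalso
      rw [← h5] at hr2
      exact hbad v hv hr2
  exact hv12 (uniq hc h3 f x p v1 v2 hp1 (by rw [hdist v1 hv1', hf]) (hfirst v1 hv1')
    (by rw [hdist v2 hv2', hf]) (hfirst v2 hv2'))

include hc hd hab in
lemma ex_le {i : ℕ} (hi : i ≤ d) : ∃ x y, G.dist x y = i := by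
  have hdesc : ∀ m, m ≤ d → ∃ w, G.dist a w = d - m := by
    intro m
    induction m with
    | zero => intro _; exact ⟨b, hab⟩
    | succ m ih =>
      intro hm
      obtain ⟨w, hw⟩ := ih (by omega)
      exact exists_pred hc a (d - (m + 1)) ⟨w, by omega⟩
  obtain ⟨w, hw⟩ := hdesc (d - i) (by omega)
  exact ⟨a, w, by omega⟩

include hc hd hle hab hEd in
/-- vertices at distance two are joined by an even walk -/
lemma two (hk : ∃ x y y', y ≠ y' ∧ G.dist x y = d ∧ G.dist x y' = d) :
    2 < d ∧ ∀ x y, G.dist x y = 2 → EV G d x y := by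
  classical
  obtain ⟨x0, y0, y0', hne, h1, h2⟩ := hk
  have hex : ∃ i, 0 < i ∧ ∃ x y, G.dist x y = i ∧ EV G d x y := by
    refine ⟨G.dist y0 y0', hc.pos_dist_of_ne hne, y0, y0', rfl, ?_⟩
    exact Relation.ReflTransGen.single ⟨x0, by rw [G.dist_comm, h1], h2⟩
  set i := Nat.find hex with hi
  obtain ⟨hi0, u, v, huv, hE⟩ := Nat.find_spec hex
  rw [← hi] at hi0 huv
  have hmin : ∀ x y, EV G d x y → G.dist x y = 0 ∨ i ≤ G.dist x y := by
    intro x y hxy
    rcases Nat.eq_zero_or_pos (G.dist x y) with h | h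
    · exact Or.inl h
    · exact Or.inr (Nat.find_min' hex ⟨h, x, y, rfl, hxy⟩)
  have hi1 : i ≠ 1 := by
    intro h
    rw [h] at huv
    exact no1 hc hd hab hEd (SimpleGraph.dist_eq_one_iff_adj.1 huv) hE
  have hid : i < d := by
    have h3 := hle u v
    have h4 : i ≠ d := by
      intro h
      rw [h] at huv
      exact hEd u v huv hE
    omega
  have hEi : ∀ x y, G.dist x y = i → EV G d x y := fun x y hxy =>
    EV_rad hc hd hE x y (by rw [huv, hxy])
  have hi2 : i = 2 := by
    by_contra hne2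
    have hi3 : 3 ≤ i := by omega
    apply hne
    refine cyc hc hd hab hEd (by omega) hle ?_ h1 h2
    intro y v1 v2 v3 hv1 hv2 hv3
    obtain ⟨x, hx⟩ := exd hd u v y
    rw [huv, G.dist_comm] at hx
    -- neighbours of y are not at distance i from x
    have hcase : ∀ w, G.Adj y w → G.dist x w + 1 = i ∨ G.dist x w = i + 1 := by
      intro w hw
      have e1 : G.dist x y ≤ G.dist x w + G.dist w y := hc.dist_triangle
      have e2 : G.dist w y = 1 := SimpleGraph.dist_eq_one_iff_adj.2 hw.symm
      have e3 : G.dist x w ≤ G.dist x y + G.dist y w := hc.dist_triangle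
      have e4 : G.dist y w = 1 := SimpleGraph.dist_eq_one_iff_adj.2 hw
      have e5 : G.dist x w ≠ i := by
        intro h
        exact no1 hc hd hab hEd hw (Relation.ReflTransGen.trans
          (EV_symm hc hd (hEi x y hx)) (hEi x w h))
      omega
    -- two neighbours of y equivalent to one vertex are equal
    have heq : ∀ w w' t, G.Adj y w → G.Adj y w' → G.dist t w = i → G.dist t w' = i → w = w' := by
      intro w w' t hw hw' h3 h4
      have h5 : EV G d w w' := Relation.ReflTransGen.trans (EV_symm hc hd (hEi t w h3)) (hEi t w' h4)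
      have e1 : G.dist w w' ≤ G.dist w y + G.dist y w' := hc.dist_triangle
      have e2 : G.dist w y = 1 := SimpleGraph.dist_eq_one_iff_adj.2 hw.symm
      have e3 : G.dist y w' = 1 := SimpleGraph.dist_eq_one_iff_adj.2 hw'
      rcases hmin w w' h5 with h6 | h6
      · exact hc.dist_eq_zero_iff.1 h6
      · omega
    -- a vertex nearer to y
    obtain ⟨j, hj⟩ : ∃ j, i = j + 1 := ⟨i - 1, by omega⟩
    obtain ⟨x1, hx1, hx1'⟩ := pred hc (x := x) (y := y) (j := j) (by rw [hx, hj])
    -- a vertex farther from y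
    obtain ⟨p, q, hpq⟩ := ex_le hc hd hab (i := i + 1) (by omega)
    obtain ⟨p', hp1, hp2⟩ := pred hc hpq
    obtain ⟨x2, hx2, hx2'⟩ := ex3 hd (x := p') (y := q) (x' := x) (y' := y) (by rw [hp2, hx]) p
    rw [SimpleGraph.dist_eq_one_iff_adj.2 hp1.symm] at hx2
    rw [hpq] at hx2'
    have hup : ∀ w w', G.Adj y w → G.Adj y w' → G.dist x w = i + 1 → G.dist x w' = i + 1 →
        w = w' := by
      have key : ∀ w, G.Adj y w → G.dist x w = i + 1 → G.dist x1 w = i := by
        intro w hw h3
        have e1 : G.dist x w ≤ G.dist x x1 + G.dist x1 w := hc.dist_triangle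
        have e2 : G.dist x x1 = 1 := SimpleGraph.dist_eq_one_iff_adj.2 hx1
        have e3 : G.dist x1 w ≤ G.dist x1 y + G.dist y w := hc.dist_triangle
        have e4 : G.dist y w = 1 := SimpleGraph.dist_eq_one_iff_adj.2 hw
        omega
      intro w w' hw hw' h3 h4
      exact heq w w' x1 hw hw' (key w hw h3) (key w' hw' h4)
    have hdown : ∀ w w', G.Adj y w → G.Adj y w' → G.dist x w + 1 = i → G.dist x w' + 1 = i →
        w = w' := by
      have key : ∀ w, G.Adj y w → G.dist x w + 1 = i → G.dist x2 w = i := by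
        intro w hw h3
        have e1 : G.dist x2 w ≤ G.dist x2 x + G.dist x w := hc.dist_triangle
        have e2 : G.dist x2 x = 1 := by rw [G.dist_comm, hx2]
        have e3 : G.dist x2 y ≤ G.dist x2 w + G.dist w y := hc.dist_triangle
        have e4 : G.dist w y = 1 := SimpleGraph.dist_eq_one_iff_adj.2 hw.symm
        omega
      intro w w' hw hw' h3 h4
      exact heq w w' x2 hw hw' (key w hw h3) (key w' hw' h4)
    rcases hcase v1 hv1 with h3 | h3
    · rcases hcase v2 hv2 with h4 | h4
      · exact Or.inl (hdown v1 v2 hv1 hv2 h3 h4)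
      · rcases hcase v3 hv3 with h5 | h5
        · exact Or.inr (Or.inl (hdown v1 v3 hv1 hv3 h3 h5))
        · exact Or.inr (Or.inr (hup v2 v3 hv2 hv3 h4 h5))
    · rcases hcase v2 hv2 with h4 | h4
      · rcases hcase v3 hv3 with h5 | h5
        · exact Or.inr (Or.inr (hdown v2 v3 hv2 hv3 h4 h5))
        · exact Or.inr (Or.inl (hup v1 v3 hv1 hv3 h3 h5))
      · exact Or.inl (hup v1 v2 hv1 hv2 h3 h4)
  rw [hi2] at hid hEi
  exact ⟨hid, hEi⟩

include hc hd hab hEd in
/-- there are no triangles -/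
lemma notri (h2 : 2 < d) (hE2 : ∀ x y, G.dist x y = 2 → EV G d x y) {u v w : V}
    (h3 : G.Adj u v) (h4 : G.Adj v w) (h5 : G.Adj u w) : False := by
  obtain ⟨x, t, hxt⟩ := ex_le hc hd hab (i := 3) (by omega)
  obtain ⟨v1, hv1, hv1'⟩ := pred hc hxt
  obtain ⟨y1, hy1, hy1'⟩ := pred hc hv1'
  have exv : G.dist x v1 = 1 := SimpleGraph.dist_eq_one_iff_adj.2 hv1
  have evy : G.dist v1 y1 = 1 := SimpleGraph.dist_eq_one_iff_adj.2 hy1
  have e1 : G.dist x y1 ≤ G.dist x v1 + G.dist v1 y1 := hc.dist_triangle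
  have e2 : G.dist x t ≤ G.dist x y1 + G.dist y1 t := hc.dist_triangle
  have hxy : G.dist x y1 = 2 := by omega
  -- the common neighbour
  obtain ⟨z, hz1, hz2⟩ := ex3 hd (x := u) (y := v) (x' := v1) (y' := y1)
    (by rw [SimpleGraph.dist_eq_one_iff_adj.2 h3, evy]) w
  rw [SimpleGraph.dist_eq_one_iff_adj.2 h5] at hz1
  rw [SimpleGraph.dist_eq_one_iff_adj.2 h4.symm] at hz2
  have e3 : G.dist x z ≤ G.dist x v1 + G.dist v1 z := hc.dist_triangle
  have e4 : G.dist x z ≠ 0 := by
    intro h
    have := hc.dist_eq_zero_iff.1 h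
    rw [← this] at hz2
    omega
  have e5 : G.dist x z ≠ 2 := by
    intro h
    exact no1 hc hd hab hEd (SimpleGraph.dist_eq_one_iff_adj.1 hz2)
      (Relation.ReflTransGen.trans (EV_symm hc hd (hE2 x z h)) (hE2 x y1 hxy))
  have e6 : G.dist x t ≤ G.dist x z + G.dist z t := hc.dist_triangle
  have e7 : G.dist z t ≤ G.dist z y1 + G.dist y1 t := hc.dist_triangle
  have e8 : G.dist z t = 2 := by omega
  exact no1 hc hd hab hEd (SimpleGraph.dist_eq_one_iff_adj.1 hz1)
    (Relation.ReflTransGen.trans (hE2 v1 t hv1') (EV_symm hc hd (hE2 z t e8)))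

include hc hd hab hEd in
/-- vertices joined by a walk of even length are equivalent -/
lemma even_walk (h2 : 2 < d) (hE2 : ∀ x y, G.dist x y = 2 → EV G d x y) (n : ℕ) :
    ∀ x y : V, ∀ p : G.Walk x y, p.length = 2 * n → EV G d x y := by
  induction n with
  | zero =>
    intro x y p hp
    have : x = y := SimpleGraph.Walk.eq_of_length_eq_zero (p := p) (by omega)
    rw [this]
    exact Relation.ReflTransGen.refl
  | succ n ih =>
    intro x y p hp
    cases p with
    | nil =>
      simp only [SimpleGraph.Walk.length_nil] at hp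
      omega
    | @cons _ w _ hadj q =>
      cases q with
      | nil =>
        simp only [SimpleGraph.Walk.length_cons, SimpleGraph.Walk.length_nil] at hp
        omega
      | @cons _ w' _ hadj' r =>
        simp only [SimpleGraph.Walk.length_cons] at hp
        refine Relation.ReflTransGen.trans ?_ (ih w' y r (by omega))
        have e1 : G.dist x w' ≤ G.dist x w + G.dist w w' := hc.dist_triangle
        have e2 : G.dist x w = 1 := SimpleGraph.dist_eq_one_iff_adj.2 hadj
        have e3 : G.dist w w' = 1 := SimpleGraph.dist_eq_one_iff_adj.2 hadj'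
        have e4 : G.dist x w' ≠ 1 := by
          intro h
          exact notri hc hd hab hEd h2 hE2 hadj hadj' (SimpleGraph.dist_eq_one_iff_adj.1 h)
        have e5 : G.dist x w' = 0 ∨ G.dist x w' = 2 := by omega
        rcases e5 with h | h
        · rw [hc.dist_eq_zero_iff.1 h]
        · exact hE2 x w' h

include hc hd hle hab hEd in
/-- **The classification.** -/
theorem cls (hk : ∃ x y y', y ≠ y' ∧ G.dist x y = d ∧ G.dist x y' = d) :
    G.Colorable 2 ∧ Odd d ∧ ∀ x y : V, ∀ p : G.Walk x y, Even p.length → EV G d x y := by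
  obtain ⟨h2, hE2⟩ := two hc hd hle hab hEd hk
  have hev : ∀ x y : V, ∀ p : G.Walk x y, Even p.length → EV G d x y := by
    intro x y p hp
    obtain ⟨n, hn⟩ := hp
    exact even_walk hc hd hab hEd h2 hE2 n x y p (by omega)
  refine ⟨?_, ?_, hev⟩
  · refine ⟨SimpleGraph.Coloring.mk (fun y => (⟨G.dist a y % 2, Nat.mod_lt _ (by norm_num)⟩ : Fin 2))
      ?_⟩
    intro y y' hadj heq
    have h3 : G.dist a y % 2 = G.dist a y' % 2 := congrArg Fin.val heq
    obtain ⟨p, hp⟩ := hc.exists_walk_length_eq_dist y a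
    obtain ⟨q, hq⟩ := hc.exists_walk_length_eq_dist a y'
    refine no1 hc hd hab hEd hadj (hev y y' (p.append q) ?_)
    rw [SimpleGraph.Walk.length_append, hp, hq, G.dist_comm]
    rw [Nat.even_iff]
    omega
  · by_contra hodd
    rw [Nat.not_odd_iff_even] at hodd
    obtain ⟨p, hp⟩ := hc.exists_walk_length_eq_dist a b
    exact hEd a b hab (hev a b p (by rw [hp, hab]; exact hodd))

end main

end Pool.Agent.AMM
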