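import Pool.Agent.AMM.Ident

/-! The matrix `R`, the identity, and the conclusion. -/

set_option autoImplicit false
set_option linter.unusedSectionVars false
set_option linter.unusedFintypeInType false
set_option linter.unusedDecidableInType false

namespace Pool.Agent.AMM

open Finset Matrix

variable {V : Type} [Fintype V] [DecidableEq V] {G : SimpleGraph V} [DecidableRel G.Adj]
variable {s : Finset ℝ} {E : ℝ → Matrix V V ℝ}

/-- `R = Σ_{θ ≠ k} (1 / (E_θ(x,x) (k - θ))) E_θ ∘ E_θ` -/
noncomputable def RR (s : Finset ℝ) (E : ℝ → Matrix V V ℝ) (k : ℝ) (x0 : V) : Matrix V V ℝ :=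
  ∑ θ ∈ s.erase k, ((E θ x0 x0)⁻¹ / (k - θ)) • Matrix.hadamard (E θ) (E θ)

lemma Spec.orth2' (hc : G.Connected) (hd : DR G) (h : Spec (G.adjMatrix ℝ) s E) (x y y' : V) :
    ∑ θ ∈ s.erase (kap G x 1), (E θ x x)⁻¹ * (E θ x y * E θ x y')
      = (if G.dist x y = G.dist x y' then (kap G x (G.dist x y))⁻¹ else 0)
        - (Fintype.card V : ℝ)⁻¹ := by
  obtain ⟨hk, hE⟩ := h.princ hc hd x
  have h1 := h.orth2 hc hd x y y'
  rw [← Finset.add_sum_erase s _ hk] at h1
  rw [← h1, hE x x, hE x y, hE x y']
  have hn : (Fintype.card V : ℝ) ≠ 0 := by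
    have : 0 < Fintype.card V := Fintype.card_pos_iff.2 ⟨x⟩
    positivity
  rw [inv_mul_cancel_left₀ (inv_ne_zero hn)]
  ring

/-- the ball sums of `R (k - A)` for `i < d` -/
lemma Spec.ballR (hc : G.Connected) (hd : DR G) (h : Spec (G.adjMatrix ℝ) s E) (x : V) (i : ℕ)
    {y0 w0 : V} (hy : G.dist x y0 = i) (hw : G.dist x w0 = i + 1) :
    ∑ y ∈ Finset.univ.filter (fun y => G.dist x y ≤ i),
      (RR s E (kap G x 1) x * ((kap G x 1) • (1 : Matrix V V ℝ) - G.adjMatrix ℝ)) x y
    = 1 - 2 * (Finset.univ.filter (fun y => G.dist x y ≤ i)).card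
        * (Fintype.card V : ℝ)⁻¹ := by
  set k := kap G x 1 with hk
  set B := Finset.univ.filter (fun y => G.dist x y ≤ i) with hB
  set R := RR s E k x with hR
  have hErad : ∀ θ ∈ s, Rad G (E θ) := fun θ hθ => h.rad hc hd hθ
  have hRrad : Rad G R := Rad.sum fun θ hθ =>
    Rad.smul _ (Rad.hadamard (hErad θ (Finset.mem_of_mem_erase hθ)) (hErad θ (Finset.mem_of_mem_erase hθ)))
  have e1 : ∀ y, (R * (k • (1 : Matrix V V ℝ) - G.adjMatrix ℝ)) x y
      = - ∑ w, G.adjMatrix ℝ y w * (R x w - R x y) := by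
    intro y
    simp only [mul_sub, Finset.sum_sub_distrib]
    rw [← Finset.sum_mul, adj_sum, kap_eq hd y x, Matrix.sub_apply, Matrix.mul_smul, mul_one,
      Matrix.smul_apply, smul_eq_mul, Matrix.mul_apply, neg_sub]
    congr 1
    refine Finset.sum_congr rfl fun w _ => ?_
    rw [rad_adj.symm y w, mul_comm]
  rw [Finset.sum_congr rfl (fun y _ => e1 y), Finset.sum_neg_distrib,
    ball_sum_rad hc hRrad x i hy hw]
  have e2 : R x w0 - R x y0 = ∑ θ ∈ s.erase k, ((E θ x x)⁻¹ / (k - θ)) *
      ((E θ x w0 - E θ x y0) * (E θ x w0 + E θ x y0)) := by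
    rw [hR, RR, Matrix.sum_apply, Matrix.sum_apply, ← Finset.sum_sub_distrib]
    refine Finset.sum_congr rfl fun θ _ => ?_
    simp only [Matrix.smul_apply, Matrix.hadamard_apply, smul_eq_mul]
    ring
  have e3 : -(NE G x i * (R x w0 - R x y0)) = ∑ y ∈ B, ∑ θ ∈ s.erase k,
      ((E θ x x)⁻¹ * (E θ x y * E θ x y0) + (E θ x x)⁻¹ * (E θ x y * E θ x w0)) := by
    rw [e2, Finset.mul_sum, ← Finset.sum_neg_distrib, Finset.sum_comm]
    refine Finset.sum_congr rfl fun θ hθ => ?_
    have hne : k - θ ≠ 0 := sub_ne_zero.2 (Finset.ne_of_mem_erase hθ).symm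
    have hf := h.flux hc hd (Finset.mem_of_mem_erase hθ) x i hy hw
    rw [← hk] at hf
    calc -(NE G x i * ((E θ x x)⁻¹ / (k - θ) * ((E θ x w0 - E θ x y0) * (E θ x w0 + E θ x y0))))
        = -((E θ x x)⁻¹ / (k - θ)) * (NE G x i * (E θ x w0 - E θ x y0))
            * (E θ x w0 + E θ x y0) := by ring
      _ = (E θ x x)⁻¹ * (∑ y ∈ B, E θ x y) * (E θ x w0 + E θ x y0) := by
          rw [hf]; field_simp; ring
      _ = _ := by
          rw [Finset.mul_sum, Finset.sum_mul]
          exact Finset.sum_congr rfl fun y _ => by ring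
  rw [e3]
  have e4 : ∀ y ∈ B, ∑ θ ∈ s.erase k,
      ((E θ x x)⁻¹ * (E θ x y * E θ x y0) + (E θ x x)⁻¹ * (E θ x y * E θ x w0))
      = (if G.dist x y = i then (kap G x i)⁻¹ else 0) - 2 * (Fintype.card V : ℝ)⁻¹ := by
    intro y hyB
    have hyi : G.dist x y ≤ i := (Finset.mem_filter.1 hyB).2
    rw [Finset.sum_add_distrib, hk, h.orth2' hc hd x y y0, h.orth2' hc hd x y w0, hy, hw,
      if_neg (show ¬ G.dist x y = i + 1 by omega)]
    by_cases h1 : G.dist x y = i
    · rw [if_pos h1, if_pos h1, h1]; ring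
    · rw [if_neg h1, if_neg h1]; ring
  rw [Finset.sum_congr rfl e4, Finset.sum_sub_distrib, Finset.sum_const, nsmul_eq_mul]
  have e5 : ∑ y ∈ B, (if G.dist x y = i then (kap G x i)⁻¹ else 0) = 1 := by
    rw [hB, Finset.sum_filter]
    have : ∀ y, (if G.dist x y ≤ i then (if G.dist x y = i then (kap G x i)⁻¹ else 0) else 0)
        = (if G.dist x y = i then 1 else 0) * (kap G x i)⁻¹ := by
      intro y
      by_cases h1 : G.dist x y = i
      · rw [if_pos h1, if_pos h1, if_pos (le_of_eq h1), one_mul]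
      · rw [if_neg h1, if_neg h1, ite_self, zero_mul]
    rw [Finset.sum_congr rfl (fun y _ => this y), ← Finset.sum_mul]
    have hkp : kap G x i ≠ 0 := by rw [← hy]; exact (kap_pos x y0).ne'
    exact mul_inv_cancel₀ hkp
  rw [e5]; ring

/-- radial matrices are determined by the ball sums -/
lemma ball_det {F : Matrix V V ℝ} (hF : Rad G F)
    (h : ∀ x y, ∑ w ∈ Finset.univ.filter (fun w => G.dist x w ≤ G.dist x y), F x w = 0)
    (h2 : ∀ x, ∀ i, (∃ y, G.dist x y = i + 1) → ∃ y, G.dist x y = i) : F = 0 := by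
  ext x y
  -- the sum over the sphere vanishes
  have hs : ∑ w, (if G.dist x w = G.dist x y then F x w else 0) = 0 := by
    rcases Nat.eq_zero_or_pos (G.dist x y) with h0 | h0
    · have := h x y
      rw [Finset.sum_filter] at this
      refine Eq.trans ?_ this
      refine Finset.sum_congr rfl fun w _ => ?_
      rw [h0]
      simp only [Nat.le_zero]
    · obtain ⟨j, hj⟩ : ∃ j, G.dist x y = j + 1 := ⟨G.dist x y - 1, by omega⟩
      obtain ⟨y', hy'⟩ := h2 x j ⟨y, hj⟩
      have e1 := h x y
      have e2 := h x y'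
      rw [Finset.sum_filter] at e1 e2
      have e3 : ∑ w, (if G.dist x w = G.dist x y then F x w else 0)
          = ∑ w, (if G.dist x w ≤ G.dist x y then F x w else 0)
            - ∑ w, (if G.dist x w ≤ G.dist x y' then F x w else 0) := by
        rw [← Finset.sum_sub_distrib]
        refine Finset.sum_congr rfl fun w _ => ?_
        rw [hj, hy']
        by_cases h1 : G.dist x w = j + 1
        · rw [if_pos h1, if_pos (by omega), if_neg (by omega), sub_zero]
        · rw [if_neg h1]
          by_cases h3 : G.dist x w ≤ j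
          · rw [if_pos (by omega), if_pos h3, sub_self]
          · rw [if_neg (by omega), if_neg h3, sub_self]
      rw [e3, e1, e2, sub_zero]
  have e4 : ∑ w, (if G.dist x w = G.dist x y then F x w else 0)
      = kap G x (G.dist x y) * F x y := by
    rw [kap, Finset.sum_mul]
    refine Finset.sum_congr rfl fun w _ => ?_
    by_cases h1 : G.dist x w = G.dist x y
    · rw [if_pos h1, if_pos h1, one_mul]; exact hF _ _ _ _ h1
    · rw [if_neg h1, if_neg h1, zero_mul]
  rw [e4] at hs
  exact (mul_eq_zero.1 hs).resolve_left (kap_pos x y).ne'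

lemma exists_pred (hc : G.Connected) (x : V) (i : ℕ) (h : ∃ y, G.dist x y = i + 1) :
    ∃ y, G.dist x y = i := by
  obtain ⟨y, hy⟩ := h
  obtain ⟨p, hp⟩ := hc.exists_walk_length_eq_dist y x
  have hlen : p.length = i + 1 := by rw [hp, G.dist_comm, hy]
  obtain ⟨y', hadj, q, hq⟩ : ∃ y', G.Adj y y' ∧ ∃ q : G.Walk y' x, q.length = i := by
    cases p with
    | nil => simp at hlen
    | cons hadj q => exact ⟨_, hadj, q, by simpa using hlen⟩
  have h1 : G.dist x y' ≤ i := by
    rw [G.dist_comm]; exact hq ▸ SimpleGraph.dist_le q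
  have h2 : G.dist x y ≤ G.dist x y' + G.dist y' y := hc.dist_triangle
  have h3 : G.dist y' y = 1 := SimpleGraph.dist_eq_one_iff_adj.2 hadj.symm
  exact ⟨y', by omega⟩

/-- The identity `R (k - A) = 1 + (1/k_d) A_d - (2/n) J`. -/
lemma Spec.ident (hc : G.Connected) (hd : DR G) (h : Spec (G.adjMatrix ℝ) s E) (x0 : V)
    {d : ℕ} (hle : ∀ x y, G.dist x y ≤ d) {a b : V} (hab : G.dist a b = d) :
    RR s E (kap G x0 1) x0 * ((kap G x0 1) • (1 : Matrix V V ℝ) - G.adjMatrix ℝ)
    = 1 + (kap G x0 d)⁻¹ • AD G d - (2 * (Fintype.card V : ℝ)⁻¹) • JJ V := by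
  set k := kap G x0 1 with hk
  set R := RR s E k x0 with hR
  have hErad : ∀ θ ∈ s, Rad G (E θ) := fun θ hθ => h.rad hc hd hθ
  have hRrad : Rad G R := Rad.sum fun θ hθ =>
    Rad.smul _ (Rad.hadamard (hErad θ (Finset.mem_of_mem_erase hθ)) (hErad θ (Finset.mem_of_mem_erase hθ)))
  have hRx : ∀ x, R = RR s E (kap G x 1) x := by
    intro x
    rw [hR, RR, RR, hk, kap_eq hd x0 x]
    refine Finset.sum_congr rfl fun θ hθ => ?_
    rw [hErad θ (Finset.mem_of_mem_erase hθ) x0 x0 x x
      (by rw [SimpleGraph.dist_self, SimpleGraph.dist_self])]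
  have hn : (Fintype.card V : ℝ) ≠ 0 := by
    have : 0 < Fintype.card V := Fintype.card_pos_iff.2 ⟨x0⟩
    positivity
  refine sub_eq_zero.1 (ball_det (G := G) ?_ ?_ (exists_pred hc))
  · exact (Rad.mul hd hRrad (((rad_one hc).smul _).sub rad_adj)).sub
      (((rad_one hc).add ((rad_AD d).smul _)).sub (rad_JJ.smul _))
  · intro x y
    simp only [Matrix.sub_apply]
    rw [Finset.sum_sub_distrib]
    set i := G.dist x y with hi
    -- the right hand side
    have hrhs : ∑ w ∈ Finset.univ.filter (fun w => G.dist x w ≤ i),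
        ((1 + (kap G x0 d)⁻¹ • AD G d : Matrix V V ℝ) x w
          - ((2 * (Fintype.card V : ℝ)⁻¹) • JJ V) x w)
        = 1 + (if i = d then 1 else 0)
          - 2 * (Finset.univ.filter (fun y => G.dist x y ≤ i)).card * (Fintype.card V : ℝ)⁻¹ := by
      rw [Finset.sum_sub_distrib]
      congr 1
      · simp only [Matrix.add_apply, Matrix.smul_apply, smul_eq_mul]
        rw [Finset.sum_add_distrib]
        congr 1
        · rw [Finset.sum_eq_single x]
          · exact Matrix.one_apply_eq x
          · intro b _ hb; exact Matrix.one_apply_ne hb.symm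
          · intro hcon; exact absurd (by simp) hcon
        · by_cases hid : i = d
          · rw [if_pos hid, Finset.sum_filter]
            have : ∀ w, (if G.dist x w ≤ i then (kap G x0 d)⁻¹ * AD G d x w else 0)
                = (kap G x0 d)⁻¹ * (if G.dist x w = d then 1 else 0) := by
              intro w
              rw [if_pos (by rw [hid]; exact hle x w)]; rfl
            rw [Finset.sum_congr rfl (fun w _ => this w), ← Finset.mul_sum]
            have h1 : (∑ w, if G.dist x w = d then (1 : ℝ) else 0) = kap G x0 d :=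
              kap_eq hd x x0 d
            have h2 : kap G x0 d ≠ 0 := by
              rw [kap_eq hd x0 a, ← hab]; exact (kap_pos a b).ne'
            rw [h1, inv_mul_cancel₀ h2]
          · rw [if_neg hid]
            refine Finset.sum_eq_zero fun w hw => ?_
            have h1 : G.dist x w ≤ i := (Finset.mem_filter.1 hw).2
            have h2 : i ≤ d := hle x y
            simp only [AD, Matrix.of_apply]
            rw [if_neg (by omega), mul_zero]
      · simp only [JJ, Matrix.smul_apply, Matrix.of_apply, smul_eq_mul, mul_one]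
        rw [Finset.sum_const, nsmul_eq_mul]; ring
    rw [← Finset.sum_sub_distrib]
    rw [Finset.sum_sub_distrib, hrhs]
    rcases Nat.lt_or_ge i d with hid | hid
    · -- i < d: there is a vertex at distance i+1 from x
      have hsucc : ∃ w, G.dist x w = i + 1 := by
        have hdx : ∃ w, G.dist x w = d := by
          have h1 : kap G x d = kap G a d := kap_eq hd x a d
          have h2 : 0 < kap G a d := by rw [← hab]; exact kap_pos a b
          by_contra hcon
          push Not at hcon
          have h3 : kap G x d = 0 := Finset.sum_eq_zero fun w _ => if_neg (hcon w)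
          rw [h3] at h1; rw [← h1] at h2; exact lt_irrefl _ h2
        have hdesc : ∀ m, m ≤ d → ∃ w, G.dist x w = d - m := by
          intro m
          induction m with
          | zero => intro _; exact hdx
          | succ m ih =>
            intro hm
            obtain ⟨w, hw⟩ := ih (by omega)
            exact exists_pred hc x (d - (m + 1)) ⟨w, by omega⟩
        obtain ⟨w, hw⟩ := hdesc (d - (i + 1)) (by omega)
        exact ⟨w, by omega⟩
      obtain ⟨w0, hw0⟩ := hsucc
      have := h.ballR hc hd x i (y0 := y) (w0 := w0) hi.symm hw0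
      rw [← hRx x] at this
      rw [hk, kap_eq hd x0 x, this, if_neg (by omega)]
      ring
    · -- i = d: the ball is everything
      have hid' : i = d := le_antisymm (hle x y) hid
      have hall : Finset.univ.filter (fun w => G.dist x w ≤ i) = Finset.univ := by
        rw [Finset.filter_true_of_mem]; intro w _; rw [hid']; exact hle x w
      rw [hall, if_pos hid', Finset.card_univ]
      have e0 : ∑ w, (R * (k • (1 : Matrix V V ℝ) - G.adjMatrix ℝ)) x w = 0 := by
        have : ∀ w, (R * (k • (1 : Matrix V V ℝ) - G.adjMatrix ℝ)) x w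
            = ∑ v, R x v * ((k • (1 : Matrix V V ℝ) - G.adjMatrix ℝ) v w) := fun w =>
          Matrix.mul_apply
        rw [Finset.sum_congr rfl (fun w _ => this w), Finset.sum_comm]
        refine Finset.sum_eq_zero fun v _ => ?_
        rw [← Finset.mul_sum]
        have : ∑ w, (k • (1 : Matrix V V ℝ) - G.adjMatrix ℝ) v w = 0 := by
          simp only [Matrix.sub_apply, Matrix.smul_apply, smul_eq_mul]
          rw [Finset.sum_sub_distrib, adj_sum, kap_eq hd v x0, ← Finset.mul_sum]
          simp only [Matrix.one_apply, Finset.sum_ite_eq, Finset.mem_univ, if_true, mul_one]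
          rw [hk, sub_self]
        rw [this, mul_zero]
      rw [e0]
      field_simp
      ring

/-- the consequence for a vector killed by the average mixing matrix -/
lemma Spec.antipode (hc : G.Connected) (hd : DR G) (h : Spec (G.adjMatrix ℝ) s E)
    {d : ℕ} (hle : ∀ x y, G.dist x y ≤ d) {a b : V} (hab : G.dist a b = d)
    {z : V → ℝ} (hz : (∑ θ ∈ s, Matrix.hadamard (E θ) (E θ)).mulVec z = 0) (x : V) :
    z x + (kap G x d)⁻¹ * ∑ y, (if G.dist x y = d then z y else 0) = 0 := by
  have hErad : ∀ θ ∈ s, Rad G (E θ) := fun θ hθ => h.rad hc hd hθ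
  have hsymm : ∀ θ ∈ s, ∀ x y, E θ x y = E θ y x := fun θ hθ x y => (hErad θ hθ).symm x y
  set k := kap G x 1 with hk
  obtain ⟨hks, hEk⟩ := h.princ hc hd x
  have hn : (Fintype.card V : ℝ) ≠ 0 := by
    have : 0 < Fintype.card V := Fintype.card_pos_iff.2 ⟨x⟩
    positivity
  -- Σ z = 0
  have hz0 : ∑ y, z y = 0 := by
    have e := h.kill hsymm hz hks x
    simp only [hEk] at e
    rw [← Finset.mul_sum] at e
    exact (mul_eq_zero.1 e).resolve_left (mul_ne_zero (inv_ne_zero hn) (inv_ne_zero hn))
  set R := RR s E k x with hR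
  have hRrad : Rad G R := Rad.sum fun θ hθ =>
    Rad.smul _ (Rad.hadamard (hErad θ (Finset.mem_of_mem_erase hθ)) (hErad θ (Finset.mem_of_mem_erase hθ)))
  have hRz : R.mulVec z = 0 := by
    ext v
    rw [hR, RR, Matrix.mulVec, dotProduct]
    simp only [Matrix.sum_apply, Matrix.smul_apply, Matrix.hadamard_apply, smul_eq_mul,
      Finset.sum_mul, Pi.zero_apply]
    rw [Finset.sum_comm]
    refine Finset.sum_eq_zero fun θ hθ => ?_
    have e := h.kill hsymm hz (Finset.mem_of_mem_erase hθ) v
    calc ∑ y, (E θ x x)⁻¹ / (k - θ) * (E θ v y * E θ v y) * z y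
        = (E θ x x)⁻¹ / (k - θ) * ∑ y, E θ v y * E θ v y * z y := by
          rw [Finset.mul_sum]; exact Finset.sum_congr rfl fun y _ => by ring
      _ = 0 := by rw [e, mul_zero]
  have hcomm : R * (k • (1 : Matrix V V ℝ) - G.adjMatrix ℝ)
      = (k • (1 : Matrix V V ℝ) - G.adjMatrix ℝ) * R :=
    Rad.comm hd hRrad (((rad_one hc).smul _).sub rad_adj)
  have e1 := h.ident hc hd x hle hab
  rw [← hk, ← hR, hcomm] at e1
  have e2 : ((1 + (kap G x d)⁻¹ • AD G d - (2 * (Fintype.card V : ℝ)⁻¹) • JJ V
      : Matrix V V ℝ)).mulVec z = 0 := by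
    rw [← e1, ← Matrix.mulVec_mulVec, hRz, Matrix.mulVec_zero]
  have e3 := congrFun e2 x
  rw [Matrix.sub_mulVec, Matrix.add_mulVec, Matrix.one_mulVec, Matrix.smul_mulVec,
    Matrix.smul_mulVec] at e3
  simp only [Pi.sub_apply, Pi.add_apply, Pi.smul_apply, smul_eq_mul, Pi.zero_apply] at e3
  have e4 : (JJ V).mulVec z x = 0 := by
    rw [Matrix.mulVec, dotProduct]
    simp only [JJ, Matrix.of_apply, one_mul]
    exact hz0
  have e5 : (AD G d).mulVec z x = ∑ y, (if G.dist x y = d then z y else 0) := by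
    rw [Matrix.mulVec, dotProduct]
    refine Finset.sum_congr rfl fun y _ => ?_
    simp only [AD, Matrix.of_apply]
    split_ifs
    · rw [one_mul]
    · rw [zero_mul]
  rw [e4, e5, mul_zero, sub_zero] at e3
  exact e3

end Pool.Agent.AMM
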