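import Pool.Agent.AMM.Spec

/-! The identity `R (k - A) = 1 + (1/k_d) A_d - (2/n) J`. -/

set_option autoImplicit false
set_option linter.unusedSectionVars false
set_option linter.unusedFintypeInType false
set_option linter.unusedDecidableInType false

namespace Pool.Agent.AMM

open Finset Matrix

variable {V : Type} [Fintype V] [DecidableEq V] {G : SimpleGraph V} [DecidableRel G.Adj]
variable {s : Finset ℝ} {E : ℝ → Matrix V V ℝ}

/-- scalars -/
lemma Spec.scal (hc : G.Connected) (hd : DR G) (h : Spec (G.adjMatrix ℝ) s E) {θ : ℝ}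
    (hθ : θ ∈ s) {M : Matrix V V ℝ} (hM : Rad G M) (x : V) :
    M * E θ = ((M * E θ) x x * (E θ x x)⁻¹) • E θ := by
  have hE := h.rad hc hd hθ
  have hME : Rad G (M * E θ) := Rad.mul hd hM hE
  by_cases h0 : E θ x x = 0
  · have : E θ = 0 := by
      refine lemmaU hc hE (h.mulA hθ) fun y => ?_
      rw [← h0]; exact hE _ _ _ _ (by rw [SimpleGraph.dist_self, SimpleGraph.dist_self])
    rw [this]; simp
  · set c : ℝ := (M * E θ) x x * (E θ x x)⁻¹ with hcdef
    have : M * E θ - c • E θ = 0 := by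
      refine lemmaU hc (θ := θ) (hME.sub (hE.smul c)) ?_ ?_
      · rw [Matrix.sub_mul, Matrix.smul_mul, Matrix.mul_assoc, h.mulA hθ, Matrix.mul_smul,
          smul_sub, smul_comm]
      · intro y
        have e1 : (M * E θ) y y = (M * E θ) x x :=
          hME _ _ _ _ (by rw [SimpleGraph.dist_self, SimpleGraph.dist_self])
        have e2 : E θ y y = E θ x x :=
          hE _ _ _ _ (by rw [SimpleGraph.dist_self, SimpleGraph.dist_self])
        rw [Matrix.sub_apply, Matrix.smul_apply, e1, e2, hcdef, smul_eq_mul, mul_assoc,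
          inv_mul_cancel₀ h0, mul_one, sub_self]
    exact sub_eq_zero.1 this

/-- size of the sphere of radius `l` -/
noncomputable def kap (G : SimpleGraph V) (x : V) (l : ℕ) : ℝ :=
  ∑ w, if G.dist x w = l then 1 else 0

lemma kap_eq (hd : DR G) (x y : V) (l : ℕ) : kap G x l = kap G y l := by
  have := gp hd (u := x) (v := x) (u' := y) (v' := y)
    (by rw [SimpleGraph.dist_self, SimpleGraph.dist_self]) (fun i _ => if i = l then 1 else 0)
  exact this

lemma kap_pos (x y : V) : 0 < kap G x (G.dist x y) := by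
  have : (1 : ℝ) ≤ kap G x (G.dist x y) := by
    have := Finset.single_le_sum (f := fun w => if G.dist x w = G.dist x y then (1 : ℝ) else 0)
      (fun w _ => by positivity) (Finset.mem_univ y)
    simpa [kap] using this
  linarith

lemma adj_sum (x : V) : ∑ w, G.adjMatrix ℝ x w = kap G x 1 := by
  refine Finset.sum_congr rfl fun w _ => ?_
  rw [SimpleGraph.adjMatrix_apply]
  simp only [SimpleGraph.dist_eq_one_iff_adj]

/-- second orthogonality relation -/
lemma Spec.orth2 (hc : G.Connected) (hd : DR G) (h : Spec (G.adjMatrix ℝ) s E) (x y y' : V) :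
    ∑ θ ∈ s, (E θ x x)⁻¹ * (E θ x y * E θ x y')
      = if G.dist x y = G.dist x y' then (kap G x (G.dist x y))⁻¹ else 0 := by
  set l := G.dist x y with hl
  have e1 : ∀ θ ∈ s, AD G l * E θ = (kap G x l * E θ x y * (E θ x x)⁻¹) • E θ := by
    intro θ hθ
    have hE := h.rad hc hd hθ
    rw [h.scal hc hd hθ (rad_AD l) x]
    congr 2
    rw [Matrix.mul_apply, kap, Finset.sum_mul]
    refine Finset.sum_congr rfl fun w _ => ?_
    simp only [AD, Matrix.of_apply]
    by_cases hw : G.dist x w = l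
    · rw [if_pos hw, one_mul, one_mul, hE.symm]
      exact hE _ _ _ _ (by rw [hw])
    · rw [if_neg hw, zero_mul, zero_mul]
  have e2 : AD G l = ∑ θ ∈ s, (kap G x l * E θ x y * (E θ x x)⁻¹) • E θ := by
    calc AD G l = AD G l * ∑ θ ∈ s, E θ := by rw [h.one, mul_one]
      _ = _ := by rw [Finset.mul_sum]; exact Finset.sum_congr rfl e1
  have e3 := congrFun (congrFun e2 x) y'
  rw [Matrix.sum_apply] at e3
  have e4 : ∑ θ ∈ s, ((kap G x l * E θ x y * (E θ x x)⁻¹) • E θ) x y'
      = kap G x l * ∑ θ ∈ s, (E θ x x)⁻¹ * (E θ x y * E θ x y') := by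
    rw [Finset.mul_sum]
    refine Finset.sum_congr rfl fun θ _ => ?_
    rw [Matrix.smul_apply, smul_eq_mul]; ring
  rw [e4] at e3
  have hk : kap G x l ≠ 0 := (kap_pos x y).ne'
  simp only [AD, Matrix.of_apply] at e3
  by_cases hy : l = G.dist x y'
  · rw [if_pos hy.symm] at e3
    rw [if_pos hy]
    exact eq_inv_of_mul_eq_one_right e3.symm
  · rw [if_neg (fun h => hy h.symm)] at e3
    rw [if_neg hy]
    exact (mul_eq_zero.1 e3.symm).resolve_left hk

/-- the principal idempotent -/
lemma Spec.princ (hc : G.Connected) (hd : DR G) (h : Spec (G.adjMatrix ℝ) s E) (x0 : V) :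
    kap G x0 1 ∈ s ∧ ∀ x y, E (kap G x0 1) x y = (Fintype.card V : ℝ)⁻¹ := by
  set k := kap G x0 1 with hk
  have hJA : JJ V * G.adjMatrix ℝ = k • JJ V := by
    ext x y
    rw [Matrix.mul_apply, Matrix.smul_apply]
    simp only [JJ, Matrix.of_apply, one_mul, smul_eq_mul, mul_one]
    rw [hk, kap_eq hd x0 y, ← adj_sum]
    exact Finset.sum_congr rfl fun w _ => rad_adj.symm w y
  have hJE : ∀ θ ∈ s, θ ≠ k → JJ V * E θ = 0 := by
    intro θ hθ hne
    have e1 : k • (JJ V * E θ) = θ • (JJ V * E θ) := by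
      calc k • (JJ V * E θ) = (k • JJ V) * E θ := by rw [Matrix.smul_mul]
        _ = JJ V * (G.adjMatrix ℝ * E θ) := by rw [← hJA, Matrix.mul_assoc]
        _ = _ := by rw [h.Amul hθ, Matrix.mul_smul]
    have e2 : (k - θ) • (JJ V * E θ) = 0 := by rw [sub_smul, e1, sub_self]
    exact (smul_eq_zero.1 e2).resolve_left (sub_ne_zero.2 hne.symm)
  have hJ : JJ V = ∑ θ ∈ s, JJ V * E θ := by rw [← Finset.mul_sum, h.one, mul_one]
  have hks : k ∈ s := by
    by_contra hcon
    rw [Finset.sum_eq_zero (fun θ hθ => hJE θ hθ (fun e => hcon (e ▸ hθ)))] at hJ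
    have := congrFun (congrFun hJ x0) x0
    simp [JJ] at this
  refine ⟨hks, ?_⟩
  rw [Finset.sum_eq_single k (fun θ hθ hne => hJE θ hθ hne) (fun h' => absurd hks h')] at hJ
  have hE := h.rad hc hd hks
  have hF : E k - (E k x0 x0) • JJ V = 0 := by
    refine lemmaU hc (θ := k) (hE.sub (rad_JJ.smul _)) ?_ ?_
    · rw [Matrix.sub_mul, Matrix.smul_mul, h.mulA hks, hJA, smul_sub, smul_comm]
    · intro y
      rw [Matrix.sub_apply, Matrix.smul_apply]
      simp only [JJ, Matrix.of_apply, smul_eq_mul, mul_one]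
      rw [sub_eq_zero]
      exact hE _ _ _ _ (by rw [SimpleGraph.dist_self, SimpleGraph.dist_self])
  have hEJ : ∀ x y, E k x y = E k x0 x0 := by
    intro x y
    have := congrFun (congrFun hF x) y
    rw [Matrix.sub_apply, Matrix.smul_apply] at this
    simp only [JJ, Matrix.of_apply, smul_eq_mul, mul_one, Matrix.zero_apply] at this
    linarith
  have e5 := congrFun (congrFun hJ x0) x0
  rw [Matrix.mul_apply] at e5
  simp only [JJ, Matrix.of_apply, one_mul] at e5
  rw [Finset.sum_congr rfl (fun y _ => hEJ y x0), Finset.sum_const, nsmul_eq_mul,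
    Finset.card_univ] at e5
  have hn : (Fintype.card V : ℝ) ≠ 0 := by
    intro h0; rw [h0, zero_mul] at e5; exact one_ne_zero e5
  intro x y
  rw [hEJ x y]
  field_simp
  rw [mul_comm]; exact e5.symm

/-- summation over a ball -/
lemma ball_sum (hc : G.Connected) (x : V) (i : ℕ) (g : V → ℝ) :
    ∑ y ∈ Finset.univ.filter (fun y => G.dist x y ≤ i),
      ∑ w, G.adjMatrix ℝ y w * (g w - g y)
    = ∑ y, ∑ w, if G.dist x y = i ∧ G.dist x w = i + 1 then
        G.adjMatrix ℝ y w * (g w - g y) else 0 := by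
  have hs : ∀ y w, G.adjMatrix ℝ y w = G.adjMatrix ℝ w y := fun y w => rad_adj.symm y w
  have h1 : ∑ y, ∑ w, (if G.dist x y ≤ i ∧ G.dist x w ≤ i then
      G.adjMatrix ℝ y w * (g w - g y) else 0) = 0 := by
    have e : ∑ y, ∑ w, (if G.dist x y ≤ i ∧ G.dist x w ≤ i then
        G.adjMatrix ℝ y w * (g w - g y) else 0)
        = - ∑ y, ∑ w, (if G.dist x y ≤ i ∧ G.dist x w ≤ i then
        G.adjMatrix ℝ y w * (g w - g y) else 0) := by
      conv_rhs => rw [Finset.sum_comm]
      rw [← Finset.sum_neg_distrib]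
      refine Finset.sum_congr rfl fun y _ => ?_
      rw [← Finset.sum_neg_distrib]
      refine Finset.sum_congr rfl fun w _ => ?_
      by_cases h : G.dist x y ≤ i ∧ G.dist x w ≤ i
      · rw [if_pos h, if_pos h.symm, hs w y]; ring
      · rw [if_neg h, if_neg (fun h' => h h'.symm), neg_zero]
    linarith
  rw [Finset.sum_filter]
  refine (sub_zero _).symm.trans ?_
  refine (congrArg _ h1.symm).trans ?_
  rw [← Finset.sum_sub_distrib]
  refine Finset.sum_congr rfl fun y _ => ?_
  by_cases hy : G.dist x y ≤ i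
  · rw [if_pos hy, ← Finset.sum_sub_distrib]
    refine Finset.sum_congr rfl fun w _ => ?_
    by_cases hw : G.dist x w ≤ i
    · rw [if_pos ⟨hy, hw⟩, sub_self, if_neg]
      rintro ⟨_, h2⟩; omega
    · rw [if_neg (fun h => hw h.2), sub_zero]
      by_cases h : G.dist x y = i ∧ G.dist x w = i + 1
      · rw [if_pos h]
      · rw [if_neg h, SimpleGraph.adjMatrix_apply, if_neg, zero_mul]
        intro hadj
        have h2 : G.dist y w = 1 := SimpleGraph.dist_eq_one_iff_adj.2 hadj
        have h3 : G.dist x w ≤ G.dist x y + G.dist y w := hc.dist_triangle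
        exact h ⟨by omega, by omega⟩
  · rw [if_neg hy, zero_sub, neg_eq_zero.2, eq_comm]
    · refine Finset.sum_eq_zero fun w _ => if_neg ?_
      rintro ⟨h2, _⟩; omega
    · exact Finset.sum_eq_zero fun w _ => if_neg (fun h => hy h.1)

/-- the number of edges between two consecutive spheres -/
noncomputable def NE (G : SimpleGraph V) [DecidableRel G.Adj] (x : V) (i : ℕ) : ℝ :=
  ∑ y, ∑ w, if G.dist x y = i ∧ G.dist x w = i + 1 then G.adjMatrix ℝ y w else 0

lemma ball_sum_rad (hc : G.Connected) {M : Matrix V V ℝ} (hM : Rad G M) (x : V) (i : ℕ)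
    {y0 w0 : V} (hy : G.dist x y0 = i) (hw : G.dist x w0 = i + 1) :
    ∑ y ∈ Finset.univ.filter (fun y => G.dist x y ≤ i),
      ∑ w, G.adjMatrix ℝ y w * (M x w - M x y) = NE G x i * (M x w0 - M x y0) := by
  rw [ball_sum hc, NE, Finset.sum_mul]
  refine Finset.sum_congr rfl fun y _ => ?_
  rw [Finset.sum_mul]
  refine Finset.sum_congr rfl fun w _ => ?_
  by_cases h : G.dist x y = i ∧ G.dist x w = i + 1
  · rw [if_pos h, if_pos h, hM x w x w0 (by rw [h.2, hw]), hM x y x y0 (by rw [h.1, hy])]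
  · rw [if_neg h, if_neg h, zero_mul]

lemma Spec.flux (hc : G.Connected) (hd : DR G) (h : Spec (G.adjMatrix ℝ) s E) {θ : ℝ}
    (hθ : θ ∈ s) (x : V) (i : ℕ) {y0 w0 : V} (hy : G.dist x y0 = i) (hw : G.dist x w0 = i + 1) :
    NE G x i * (E θ x w0 - E θ x y0)
      = (θ - kap G x 1) * ∑ y ∈ Finset.univ.filter (fun y => G.dist x y ≤ i), E θ x y := by
  have hE := h.rad hc hd hθ
  rw [← ball_sum_rad hc hE x i hy hw, Finset.mul_sum]
  refine Finset.sum_congr rfl fun y _ => ?_
  simp only [mul_sub, Finset.sum_sub_distrib]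
  rw [← Finset.sum_mul, adj_sum, kap_eq hd y x, sub_mul]
  congr 1
  have := congrFun (congrFun (h.mulA hθ) x) y
  rw [Matrix.mul_apply, Matrix.smul_apply, smul_eq_mul] at this
  rw [← this]
  refine Finset.sum_congr rfl fun w _ => ?_
  rw [rad_adj.symm y w, mul_comm]

end Pool.Agent.AMM
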