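import Pool.Agent.AMM.Lit

/-! The kernel of the average mixing matrix of a distance-regular graph. -/

set_option autoImplicit false
set_option linter.unusedSectionVars false
set_option linter.unusedFintypeInType false
set_option linter.unusedDecidableInType false

namespace Pool.Agent.AMM

open Finset Matrix

variable {V : Type} [Fintype V] [DecidableEq V] {G : SimpleGraph V} [DecidableRel G.Adj]
variable {s : Finset ℝ} {E : ℝ → Matrix V V ℝ}

/-- `z` takes opposite values at any two vertices at distance `d` -/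
def Alt (G : SimpleGraph V) (d : ℕ) (z : V → ℝ) : Prop := ∀ x y, G.dist x y = d → z y = - z x

/-- a vector with `A_d z = - k_d z` alternates -/
lemma alt_of_eig {d : ℕ} {K : ℝ} (hK : ∀ x, kap G x d = K) {z : V → ℝ}
    (hz : ∀ x, ∑ y, (if G.dist x y = d then z y else 0) = - (K * z x)) : Alt G d z := by
  have h1 : ∑ x, ∑ y, (if G.dist x y = d then (z x + z y) ^ 2 else 0) = 0 := by
    have e1 : ∑ x, ∑ y, (if G.dist x y = d then z x ^ 2 else 0) = K * ∑ x, z x ^ 2 := by
      rw [Finset.mul_sum]
      refine Finset.sum_congr rfl fun x _ => ?_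
      rw [← hK x, kap, Finset.sum_mul]
      refine Finset.sum_congr rfl fun y _ => ?_
      split_ifs
      · rw [one_mul]
      · rw [zero_mul]
    have e2 : ∑ x, ∑ y, (if G.dist x y = d then z y ^ 2 else 0) = K * ∑ x, z x ^ 2 := by
      rw [← e1, Finset.sum_comm]
      refine Finset.sum_congr rfl fun x _ => Finset.sum_congr rfl fun y _ => ?_
      rw [G.dist_comm]
    have e3 : ∑ x, ∑ y, (if G.dist x y = d then 2 * z x * z y else 0)
        = - (2 * (K * ∑ x, z x ^ 2)) := by
      rw [Finset.mul_sum, Finset.mul_sum, ← Finset.sum_neg_distrib]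
      refine Finset.sum_congr rfl fun x _ => ?_
      have e4 : ∑ y, (if G.dist x y = d then 2 * z x * z y else 0)
          = 2 * z x * ∑ y, (if G.dist x y = d then z y else 0) := by
        rw [Finset.mul_sum]
        refine Finset.sum_congr rfl fun y _ => ?_
        split_ifs
        · rfl
        · rw [mul_zero]
      rw [e4, hz x]
      ring
    have e5 : ∑ x, ∑ y, (if G.dist x y = d then (z x + z y) ^ 2 else 0)
        = ∑ x, ∑ y, (if G.dist x y = d then z x ^ 2 else 0)
          + ∑ x, ∑ y, (if G.dist x y = d then 2 * z x * z y else 0)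
          + ∑ x, ∑ y, (if G.dist x y = d then z y ^ 2 else 0) := by
      rw [← Finset.sum_add_distrib, ← Finset.sum_add_distrib]
      refine Finset.sum_congr rfl fun x _ => ?_
      rw [← Finset.sum_add_distrib, ← Finset.sum_add_distrib]
      refine Finset.sum_congr rfl fun y _ => ?_
      split_ifs <;> ring
    rw [e5, e1, e2, e3]
    ring
  have hnn : ∀ x ∈ Finset.univ, ∀ y ∈ (Finset.univ : Finset V),
      0 ≤ (if G.dist x y = d then (z x + z y) ^ 2 else 0) := by
    intro x _ y _
    split_ifs
    · positivity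
    · exact le_rfl
  intro x y hxy
  have h2 := (Finset.sum_eq_zero_iff_of_nonneg (fun x hx => Finset.sum_nonneg (hnn x hx))).1 h1 x
    (Finset.mem_univ x)
  have h3 := (Finset.sum_eq_zero_iff_of_nonneg (hnn x (Finset.mem_univ x))).1 h2 y
    (Finset.mem_univ y)
  rw [if_pos hxy] at h3
  have h4 : z x + z y = 0 := by
    have := pow_eq_zero_iff (n := 2) (by norm_num) |>.1 h3
    exact this
  linarith

lemma eig_of_alt {d : ℕ} {K : ℝ} (hK : ∀ x, kap G x d = K) {z : V → ℝ} (hz : Alt G d z) (x : V) :
    ∑ y, (if G.dist x y = d then z y else 0) = - (K * z x) := by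
  rw [← hK x, kap, Finset.sum_mul, ← Finset.sum_neg_distrib]
  refine Finset.sum_congr rfl fun y _ => ?_
  split_ifs with h
  · rw [one_mul]
    exact hz x y h
  · rw [zero_mul, neg_zero]

/-- an alternating vector has sum zero -/
lemma sum_of_alt {d : ℕ} {K : ℝ} (hK : ∀ x, kap G x d = K) (hK0 : K ≠ 0) {z : V → ℝ}
    (hz : Alt G d z) : ∑ x, z x = 0 := by
  have h1 : K * ∑ x, z x = ∑ x, ∑ y, (if G.dist x y = d then z x else 0) := by
    rw [Finset.mul_sum]
    refine Finset.sum_congr rfl fun x _ => ?_
    rw [← hK x, kap, Finset.sum_mul]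
    refine Finset.sum_congr rfl fun y _ => ?_
    split_ifs
    · rw [one_mul]
    · rw [zero_mul]
  have h2 : ∑ x, ∑ y, (if G.dist x y = d then z x else 0) = - (K * ∑ x, z x) := by
    rw [Finset.sum_comm, Finset.mul_sum, ← Finset.sum_neg_distrib]
    refine Finset.sum_congr rfl fun x _ => ?_
    rw [← eig_of_alt hK hz x]
    refine Finset.sum_congr rfl fun y _ => ?_
    rw [G.dist_comm]
  have h3 : K * ∑ x, z x = 0 := by
    rw [← h1] at h2
    linarith
  exact (mul_eq_zero.1 h3).resolve_left hK0

/-- the eigenvalues are at most the valency -/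
lemma Spec.le_val (hc : G.Connected) (hd : DR G) (h : Spec (G.adjMatrix ℝ) s E) (x0 : V) {θ : ℝ}
    (hθ : θ ∈ s) (hne : E θ ≠ 0) : θ ≤ kap G x0 1 := by
  have : Nonempty V := ⟨x0⟩
  obtain ⟨⟨x, y⟩, _, hmax⟩ := Finset.exists_max_image (Finset.univ : Finset (V × V))
    (fun p => |E θ p.1 p.2|) ⟨(x0, x0), Finset.mem_univ _⟩
  have hpos : 0 < |E θ x y| := by
    by_contra hcon
    apply hne
    ext a b
    have h1 := hmax (a, b) (Finset.mem_univ _)
    have h2 := abs_nonneg (E θ a b)
    have h3 : |E θ a b| = 0 := by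
      simp only at h1
      push Not at hcon
      linarith
    exact abs_eq_zero.1 h3
  have e := congrFun (congrFun (h.mulA hθ) x) y
  rw [Matrix.mul_apply, Matrix.smul_apply, smul_eq_mul] at e
  have h1 : |θ * E θ x y| ≤ ∑ w, |E θ x w| * G.adjMatrix ℝ w y := by
    rw [← e]
    refine (Finset.abs_sum_le_sum_abs _ _).trans (le_of_eq ?_)
    refine Finset.sum_congr rfl fun w _ => ?_
    rw [abs_mul]
    congr 1
    rw [SimpleGraph.adjMatrix_apply]
    split_ifs <;> simp
  have h2 : ∑ w, |E θ x w| * G.adjMatrix ℝ w y ≤ ∑ w, |E θ x y| * G.adjMatrix ℝ w y := by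
    refine Finset.sum_le_sum fun w _ => ?_
    refine mul_le_mul_of_nonneg_right (hmax (x, w) (Finset.mem_univ _)) ?_
    rw [SimpleGraph.adjMatrix_apply]
    split_ifs <;> norm_num
  have h3 : ∑ w, |E θ x y| * G.adjMatrix ℝ w y = |E θ x y| * kap G x0 1 := by
    rw [← Finset.mul_sum, kap_eq hd x0 y, ← adj_sum]
    congr 1
    exact Finset.sum_congr rfl fun w _ => rad_adj.symm w y
  have h4 : θ * |E θ x y| ≤ |θ * E θ x y| := by
    rw [abs_mul]
    exact mul_le_mul_of_nonneg_right (le_abs_self θ) (abs_nonneg _)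
  have h5 : θ * |E θ x y| ≤ kap G x0 1 * |E θ x y| := by
    calc θ * |E θ x y| ≤ |E θ x y| * kap G x0 1 := by linarith
      _ = _ := mul_comm _ _
  exact le_of_mul_le_mul_right h5 hpos

/-- the quadratic form of a Schur square -/
lemma Spec.quad {A : Matrix V V ℝ} (h : Spec A s E) (hs : ∀ θ ∈ s, ∀ x y, E θ x y = E θ y x)
    (z : V → ℝ) {θ : ℝ} (hθ : θ ∈ s) :
    0 ≤ ∑ x, ∑ y, z x * (E θ x y * E θ x y) * z y ∧
    (∑ x, ∑ y, z x * (E θ x y * E θ x y) * z y = 0 →
      ∀ x, ∑ y, E θ x y * E θ x y * z y = 0) := by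
  set F : Matrix V V ℝ := E θ * Matrix.diagonal z * E θ with hF
  have hq : ∑ x, ∑ y, F x y * F x y = ∑ x, ∑ y, z x * (E θ x y * E θ x y) * z y := by
    have hT : (E θ)ᵀ = E θ := by ext x y; exact hs θ hθ y x
    have hFT : Fᵀ = F := by
      simp only [hF, Matrix.transpose_mul, hT, Matrix.diagonal_transpose, Matrix.mul_assoc]
    have e1 : ∑ x, ∑ y, F x y * F x y = Matrix.trace (F * F) := by
      simp only [Matrix.trace, Matrix.diag, Matrix.mul_apply]
      refine Finset.sum_congr rfl fun x _ => Finset.sum_congr rfl fun y _ => ?_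
      congr 1
      exact (congrFun (congrFun hFT x) y).symm ▸ rfl
    have e2 : Matrix.trace (F * F)
        = Matrix.trace (Matrix.diagonal z * E θ * (Matrix.diagonal z * E θ)) := by
      have : F * F = E θ * (Matrix.diagonal z * E θ * (Matrix.diagonal z * E θ)) := by
        simp only [hF]
        calc E θ * Matrix.diagonal z * E θ * (E θ * Matrix.diagonal z * E θ)
            = E θ * Matrix.diagonal z * (E θ * E θ) * Matrix.diagonal z * E θ := by
              simp only [Matrix.mul_assoc]
          _ = _ := by rw [h.idem θ hθ]; simp only [Matrix.mul_assoc]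
      rw [this, Matrix.trace_mul_comm]
      congr 1
      calc Matrix.diagonal z * E θ * (Matrix.diagonal z * E θ) * E θ
          = Matrix.diagonal z * E θ * Matrix.diagonal z * (E θ * E θ) := by
            simp only [Matrix.mul_assoc]
        _ = _ := by rw [h.idem θ hθ]; simp only [Matrix.mul_assoc]
    rw [e1, e2]
    simp only [Matrix.trace, Matrix.diag]
    refine Finset.sum_congr rfl fun x _ => ?_
    rw [Matrix.mul_apply]
    refine Finset.sum_congr rfl fun y _ => ?_
    rw [Matrix.diagonal_mul, Matrix.diagonal_mul, hs θ hθ y x]; ring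
  have hnn : ∀ x ∈ (Finset.univ : Finset V), 0 ≤ ∑ y, F x y * F x y := fun x _ =>
    Finset.sum_nonneg fun y _ => mul_self_nonneg _
  rw [← hq]
  refine ⟨Finset.sum_nonneg hnn, ?_⟩
  intro h0 x
  have h2 := (Finset.sum_eq_zero_iff_of_nonneg hnn).1 h0 x (Finset.mem_univ _)
  have h3 := (Finset.sum_eq_zero_iff_of_nonneg (fun y _ => mul_self_nonneg (F x y))).1 h2 x
    (Finset.mem_univ _)
  have e : F x x = ∑ y, E θ x y * E θ x y * z y := by
    simp only [hF]
    rw [Matrix.mul_apply]
    refine Finset.sum_congr rfl fun y _ => ?_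
    rw [Matrix.mul_diagonal, hs θ hθ y x]; ring
  rw [← e]
  exact mul_self_eq_zero.1 h3

/-- the quadratic form of the diagonal entries -/
lemma Spec.diag_pos (hc : G.Connected) (hd : DR G) (h : Spec (G.adjMatrix ℝ) s E) (x0 : V) {θ : ℝ}
    (hθ : θ ∈ s) (hne : E θ ≠ 0) : 0 < E θ x0 x0 := by
  have hE := h.rad hc hd hθ
  have e : E θ x0 x0 = ∑ y, E θ x0 y * E θ x0 y := by
    have := congrFun (congrFun (h.idem θ hθ) x0) x0
    rw [Matrix.mul_apply] at this
    rw [← this]
    exact Finset.sum_congr rfl fun y _ => by rw [hE.symm y x0]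
  have h0 : 0 ≤ E θ x0 x0 := by
    rw [e]
    exact Finset.sum_nonneg fun y _ => mul_self_nonneg _
  rcases lt_or_eq_of_le h0 with h1 | h1
  · exact h1
  · exfalso
    apply hne
    refine lemmaU hc hE (h.mulA hθ) fun y => ?_
    rw [h1]
    exact hE _ _ _ _ (by rw [SimpleGraph.dist_self, SimpleGraph.dist_self])

/-- **The kernel of the average mixing matrix**: the vectors which take opposite values at any two
vertices at distance `d`, the diameter. -/
theorem Spec.ker_iff (hc : G.Connected) (hd : DR G) (h : Spec (G.adjMatrix ℝ) s E)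
    {d : ℕ} (hle : ∀ x y, G.dist x y ≤ d) {a b : V} (hab : G.dist a b = d) (z : V → ℝ) :
    (∑ θ ∈ s, Matrix.hadamard (E θ) (E θ)).mulVec z = 0 ↔ Alt G d z := by
  have hKa : ∀ x, kap G x d = kap G a d := fun x => kap_eq hd x a d
  have hK0 : kap G a d ≠ 0 := by rw [← hab]; exact (kap_pos a b).ne'
  constructor
  · intro hz
    refine alt_of_eig hKa fun x => ?_
    have e := h.antipode hc hd hle hab hz x
    rw [hKa x] at e
    field_simp at e
    linarith
  · intro hz
    have hErad : ∀ θ ∈ s, Rad G (E θ) := fun θ hθ => h.rad hc hd hθ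
    have hsymm : ∀ θ ∈ s, ∀ x y, E θ x y = E θ y x := fun θ hθ x y => (hErad θ hθ).symm x y
    set k := kap G a 1 with hk
    obtain ⟨hks, hEk⟩ := h.princ hc hd a
    rw [← hk] at hks hEk
    have hn : (Fintype.card V : ℝ) ≠ 0 := by
      have : 0 < Fintype.card V := Fintype.card_pos_iff.2 ⟨a⟩
      positivity
    have hz0 : ∑ y, z y = 0 := sum_of_alt hKa hK0 hz
    have hJz : (JJ V).mulVec z = 0 := by
      ext x
      rw [Matrix.mulVec, dotProduct]
      simp only [JJ, Matrix.of_apply, one_mul, Pi.zero_apply]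
      exact hz0
    set R := RR s E k a with hR
    have hRrad : Rad G R := Rad.sum fun θ hθ =>
      Rad.smul _ (Rad.hadamard (hErad θ (Finset.mem_of_mem_erase hθ))
        (hErad θ (Finset.mem_of_mem_erase hθ)))
    -- R (k - A) z = 0
    have e1 := h.ident hc hd a hle hab
    rw [← hk, ← hR] at e1
    have hcomm : R * (k • (1 : Matrix V V ℝ) - G.adjMatrix ℝ)
        = (k • (1 : Matrix V V ℝ) - G.adjMatrix ℝ) * R :=
      Rad.comm hd hRrad (((rad_one hc).smul _).sub rad_adj)
    have e2 : ((k • (1 : Matrix V V ℝ) - G.adjMatrix ℝ) * R).mulVec z = 0 := by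
      rw [← hcomm, e1, Matrix.sub_mulVec, Matrix.add_mulVec, Matrix.one_mulVec,
        Matrix.smul_mulVec, Matrix.smul_mulVec, hJz, smul_zero, sub_zero]
      ext x
      have e5 : (AD G d).mulVec z x = ∑ y, (if G.dist x y = d then z y else 0) := by
        rw [Matrix.mulVec, dotProduct]
        refine Finset.sum_congr rfl fun y _ => ?_
        simp only [AD, Matrix.of_apply]
        split_ifs
        · rw [one_mul]
        · rw [zero_mul]
      simp only [Pi.add_apply, Pi.smul_apply, smul_eq_mul, Pi.zero_apply]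
      rw [e5, eig_of_alt hKa hz x]
      field_simp
      ring
    -- R z = 0
    set y := R.mulVec z with hy
    have hAy : (G.adjMatrix ℝ).mulVec y = k • y := by
      rw [← Matrix.mulVec_mulVec, ← hy, Matrix.sub_mulVec, Matrix.smul_mulVec,
        Matrix.one_mulVec] at e2
      exact (sub_eq_zero.1 e2).symm
    have hEy : ∀ θ ∈ s, θ ≠ k → (E θ).mulVec y = 0 := by
      intro θ hθ hne
      have h1 : (E θ * G.adjMatrix ℝ).mulVec y = θ • (E θ).mulVec y := by
        rw [h.mulA hθ, Matrix.smul_mulVec]
      rw [← Matrix.mulVec_mulVec, hAy, Matrix.mulVec_smul] at h1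
      have h2 : (k - θ) • (E θ).mulVec y = 0 := by rw [sub_smul, h1, sub_self]
      exact (smul_eq_zero.1 h2).resolve_left (sub_ne_zero.2 hne.symm)
    have hyE : y = (E k).mulVec y := by
      have h1 : y = (∑ θ ∈ s, E θ).mulVec y := by rw [h.one, Matrix.one_mulVec]
      rw [Matrix.sum_mulVec, Finset.sum_eq_single k (fun θ hθ hne => hEy θ hθ hne)
        (fun h' => absurd hks h')] at h1
      exact h1
    have hJR : JJ V * R = R * JJ V := Rad.comm hd rad_JJ hRrad
    have hJy : ∑ x, y x = 0 := by
      have h1 : (JJ V).mulVec y = 0 := by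
        rw [hy, Matrix.mulVec_mulVec, hJR, ← Matrix.mulVec_mulVec, hJz, Matrix.mulVec_zero]
      have h2 := congrFun h1 a
      rw [Matrix.mulVec, dotProduct] at h2
      simpa [JJ] using h2
    have hy0 : y = 0 := by
      rw [hyE]
      ext x
      rw [Matrix.mulVec, dotProduct]
      simp only [hEk, Pi.zero_apply]
      rw [← Finset.mul_sum, hJy, mul_zero]
    -- the quadratic form
    have hquad : ∑ θ ∈ s.erase k, ((E θ a a)⁻¹ / (k - θ)) *
        (∑ x, ∑ y, z x * (E θ x y * E θ x y) * z y) = 0 := by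
      have h1 : ∑ x, z x * (R.mulVec z) x = 0 := by
        rw [← hy, hy0]
        simp
      rw [← h1, hR, RR]
      have h2 : ∀ x, z x * ((∑ θ ∈ s.erase k, ((E θ a a)⁻¹ / (k - θ)) •
          Matrix.hadamard (E θ) (E θ)).mulVec z) x =
          ∑ θ ∈ s.erase k, ((E θ a a)⁻¹ / (k - θ)) *
            ∑ y, z x * (E θ x y * E θ x y) * z y := by
        intro x
        rw [Matrix.mulVec, dotProduct, Finset.mul_sum]
        have h3 : ∀ y, z x * ((∑ θ ∈ s.erase k, ((E θ a a)⁻¹ / (k - θ)) •
            Matrix.hadamard (E θ) (E θ)) x y * z y) =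
            ∑ θ ∈ s.erase k, ((E θ a a)⁻¹ / (k - θ)) * (z x * (E θ x y * E θ x y) * z y) := by
          intro y
          rw [Matrix.sum_apply, Finset.sum_mul, Finset.mul_sum]
          refine Finset.sum_congr rfl fun θ _ => ?_
          rw [Matrix.smul_apply, Matrix.hadamard_apply, smul_eq_mul]
          ring
        rw [Finset.sum_congr rfl (fun y _ => h3 y), Finset.sum_comm]
        refine Finset.sum_congr rfl fun θ _ => ?_
        rw [Finset.mul_sum]
      rw [Finset.sum_congr rfl (fun x _ => h2 x), Finset.sum_comm]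
      refine Finset.sum_congr rfl fun θ _ => ?_
      rw [Finset.mul_sum]
    have hterm : ∀ θ ∈ s.erase k, 0 ≤ ((E θ a a)⁻¹ / (k - θ)) *
        (∑ x, ∑ y, z x * (E θ x y * E θ x y) * z y) := by
      intro θ hθ
      have hθs := Finset.mem_of_mem_erase hθ
      by_cases hE0 : E θ = 0
      · rw [hE0]
        simp
      · have h1 := h.diag_pos hc hd a hθs hE0
        have h2 := h.le_val hc hd a hθs hE0
        have h3 : 0 ≤ k - θ := by rw [hk]; linarith
        have h4 := (h.quad hsymm z hθs).1
        positivity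
    have hkill : ∀ θ ∈ s, ∀ x, ∑ y, E θ x y * E θ x y * z y = 0 := by
      intro θ hθ x
      by_cases hθk : θ = k
      · rw [hθk]
        simp only [hEk]
        rw [← Finset.mul_sum, hz0, mul_zero]
      · by_cases hE0 : E θ = 0
        · rw [hE0]
          simp
        · have hmem : θ ∈ s.erase k := Finset.mem_erase.2 ⟨hθk, hθ⟩
          have h0 := (Finset.sum_eq_zero_iff_of_nonneg hterm).1 hquad θ hmem
          have h1 := h.diag_pos hc hd a hθ hE0
          have h2 := h.le_val hc hd a hθ hE0
          have h3 : 0 < k - θ := by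
            rcases lt_or_eq_of_le h2 with h5 | h5
            · rw [hk]; linarith
            · exact absurd h5 hθk
          have h4 : (E θ a a)⁻¹ / (k - θ) ≠ 0 := by positivity
          exact (h.quad hsymm z hθ).2 ((mul_eq_zero.1 h0).resolve_left h4) x
    ext x
    rw [Matrix.mulVec, dotProduct, Pi.zero_apply]
    have h1 : ∀ y, (∑ θ ∈ s, Matrix.hadamard (E θ) (E θ)) x y * z y =
        ∑ θ ∈ s, E θ x y * E θ x y * z y := by
      intro y
      rw [Matrix.sum_apply, Finset.sum_mul]
      rfl
    rw [Finset.sum_congr rfl (fun y _ => h1 y), Finset.sum_comm]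
    exact Finset.sum_eq_zero fun θ hθ => hkill θ hθ x

end Pool.Agent.AMM
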