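import Pool.Agent.AMM.Final

/-! The literal definition of distance-regularity implies that all intersection numbers are
constant. -/

set_option autoImplicit false
set_option linter.unusedSectionVars false
set_option linter.unusedFintypeInType false
set_option linter.unusedDecidableInType false

namespace Pool.Agent.AMM

open Finset Matrix

variable {V : Type} [Fintype V] [DecidableEq V] (G : SimpleGraph V) [DecidableRel G.Adj]

/-- For two vertices `u`, `v` the number of neighbours of `v` at distance `j` from `u` depends only
on the distance of `u` and `v`. -/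
def LR : Prop := ∀ u v u' v' : V, G.dist u v = G.dist u' v' → ∀ j : ℕ,
  (Finset.univ.filter (fun w => G.Adj v w ∧ G.dist u w = j)).card =
  (Finset.univ.filter (fun w => G.Adj v' w ∧ G.dist u' w = j)).card

variable {G}

lemma gpA (h : LR G) {u v u' v' : V} (e : G.dist u v = G.dist u' v') (F : ℕ → ℝ) :
    ∑ w ∈ Finset.univ.filter (fun w => G.Adj v w), F (G.dist u w) =
      ∑ w ∈ Finset.univ.filter (fun w => G.Adj v' w), F (G.dist u' w) := by
  set T : Finset ℕ := Finset.univ.image (fun p : V × V => G.dist p.1 p.2) with hT
  have key : ∀ a b : V, ∑ w ∈ Finset.univ.filter (fun w => G.Adj b w), F (G.dist a w) =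
      ∑ j ∈ T, ((Finset.univ.filter (fun w => G.Adj b w ∧ G.dist a w = j)).card : ℝ) * F j := by
    intro a b
    rw [← Finset.sum_fiberwise_of_maps_to (t := T) (g := fun w => G.dist a w)
      (fun w _ => Finset.mem_image.2 ⟨(a, w), Finset.mem_univ _, rfl⟩)]
    refine Finset.sum_congr rfl fun j _ => ?_
    rw [Finset.filter_filter, Finset.sum_congr rfl (g := fun _ => F j), Finset.sum_const,
      nsmul_eq_mul]
    intro w hw
    rw [(Finset.mem_filter.1 hw).2.2]
  rw [key, key]
  refine Finset.sum_congr rfl fun j _ => ?_
  rw [h u v u' v' e j]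

lemma rad_mulA (h : LR G) {M : Matrix V V ℝ} (hM : Rad G M) : Rad G (M * G.adjMatrix ℝ) := by
  obtain ⟨f, hf⟩ := hM.fn
  have e : ∀ x y, (M * G.adjMatrix ℝ) x y =
      ∑ w ∈ Finset.univ.filter (fun w => G.Adj y w), f (G.dist x w) := by
    intro x y
    rw [Matrix.mul_apply, Finset.sum_filter]
    refine Finset.sum_congr rfl fun w _ => ?_
    rw [SimpleGraph.adjMatrix_apply, hf]
    by_cases hw : G.Adj y w
    · rw [if_pos hw.symm, if_pos hw, mul_one]
    · rw [if_neg (fun h' => hw h'.symm), if_neg hw, mul_zero]
  intro x y x' y' hxy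
  rw [e, e]
  exact gpA h hxy f

lemma AD_zero (hc : G.Connected) : AD G 0 = 1 := by
  ext x y
  simp only [AD, Matrix.of_apply, Matrix.one_apply, hc.dist_eq_zero_iff]

/-- the entries of `AD l * A` -/
lemma AD_mulA (hc : G.Connected) (h : LR G) (l : ℕ) :
    ∃ g : ℕ → ℝ, (∀ x y, (AD G l * G.adjMatrix ℝ) x y = g (G.dist x y)) ∧
      (∀ x y, G.dist x y + 1 < l → (AD G l * G.adjMatrix ℝ) x y = 0) ∧
      (∀ x y, l + 1 < G.dist x y → (AD G l * G.adjMatrix ℝ) x y = 0) ∧
      (∀ x y, G.dist x y = l + 1 → (AD G l * G.adjMatrix ℝ) x y ≠ 0) := by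
  obtain ⟨g, hg⟩ := (rad_mulA h (rad_AD (G := G) l)).fn
  have hzero : ∀ x y, (∀ w, G.Adj w y → G.dist x w ≠ l) → (AD G l * G.adjMatrix ℝ) x y = 0 := by
    intro x y hxy
    rw [Matrix.mul_apply]
    refine Finset.sum_eq_zero fun w _ => ?_
    rw [SimpleGraph.adjMatrix_apply]
    by_cases hw : G.Adj w y
    · simp [AD, hxy w hw]
    · rw [if_neg hw, mul_zero]
  refine ⟨g, hg, ?_, ?_, ?_⟩
  · intro x y hxy
    refine hzero x y fun w hw hwl => ?_
    have h1 : G.dist x w ≤ G.dist x y + G.dist y w := hc.dist_triangle
    have h2 : G.dist y w = 1 := SimpleGraph.dist_eq_one_iff_adj.2 hw.symm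
    omega
  · intro x y hxy
    refine hzero x y fun w hw hwl => ?_
    have h1 : G.dist x y ≤ G.dist x w + G.dist w y := hc.dist_triangle
    have h2 : G.dist w y = 1 := SimpleGraph.dist_eq_one_iff_adj.2 hw
    omega
  · intro x y hxy
    obtain ⟨p, hp⟩ := hc.exists_walk_length_eq_dist y x
    have hlen : p.length = l + 1 := by rw [hp, G.dist_comm, hxy]
    obtain ⟨y', hadj, q, hq⟩ : ∃ y', G.Adj y y' ∧ ∃ q : G.Walk y' x, q.length = l := by
      cases p with
      | nil => simp at hlen
      | cons hadj q => exact ⟨_, hadj, q, by simpa using hlen⟩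
    have h1 : G.dist x y' ≤ l := by
      rw [G.dist_comm]; exact hq ▸ SimpleGraph.dist_le q
    have h2 : G.dist x y ≤ G.dist x y' + G.dist y' y := hc.dist_triangle
    have h3 : G.dist y' y = 1 := SimpleGraph.dist_eq_one_iff_adj.2 hadj.symm
    have h4 : G.dist x y' = l := by omega
    rw [Matrix.mul_apply]
    have h5 : (1 : ℝ) ≤ ∑ j, AD G l x j * G.adjMatrix ℝ j y := by
      have h6 := Finset.single_le_sum (f := fun j => AD G l x j * G.adjMatrix ℝ j y)
        (fun w _ => by
          rw [SimpleGraph.adjMatrix_apply]
          simp only [AD, Matrix.of_apply]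
          positivity) (Finset.mem_univ y')
      have h7 : AD G l x y' * G.adjMatrix ℝ y' y = 1 := by
        rw [SimpleGraph.adjMatrix_apply, if_pos hadj.symm]
        simp [AD, h4]
      rw [← h7]
      exact h6
    linarith

/-- multiplication by distance matrices preserves radial matrices -/
lemma rad_mulAD (hc : G.Connected) (h : LR G) : ∀ l : ℕ,
    (∀ M : Matrix V V ℝ, Rad G M → Rad G (M * AD G l)) ∧
    (∀ M : Matrix V V ℝ, Rad G M → Rad G (M * AD G (l + 1))) := by
  have step : ∀ l : ℕ, (∀ M : Matrix V V ℝ, Rad G M → Rad G (M * AD G l)) →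
      (∀ j, j + 1 = l → ∀ M : Matrix V V ℝ, Rad G M → Rad G (M * AD G j)) →
      ∀ M : Matrix V V ℝ, Rad G M → Rad G (M * AD G (l + 1)) := by
    intro l h1 h2 M hM
    by_cases hex : ∃ x y, G.dist x y = l + 1
    · obtain ⟨x0, y0, h0⟩ := hex
      obtain ⟨g, hg, hg1, hg2, hg3⟩ := AD_mulA hc h l
      have hc0 : g (l + 1) ≠ 0 := by
        have := hg3 x0 y0 h0
        rwa [hg, h0] at this
      -- the lower term
      obtain ⟨N, hN1, hN2⟩ : ∃ N : Matrix V V ℝ, Rad G (M * N) ∧
          g (l + 1) • AD G (l + 1) = AD G l * G.adjMatrix ℝ - g l • AD G l - N := by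
        rcases Nat.eq_zero_or_pos l with hl | hl
        · refine ⟨0, ?_, ?_⟩
          · rw [Matrix.mul_zero]
            intro x y x' y' _
            rfl
          · ext x y
            simp only [Matrix.sub_apply, Matrix.smul_apply, smul_eq_mul, Matrix.zero_apply,
              sub_zero]
            rcases lt_trichotomy (G.dist x y) (l + 1) with h3 | h3 | h3
            · have h4 : G.dist x y = l := by omega
              rw [hg, h4]
              simp [AD, h4]
            · rw [hg, h3]
              simp [AD, h3]
            · rw [hg2 x y h3]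
              simp only [AD, Matrix.of_apply]
              rw [if_neg (by omega), if_neg (by omega)]
              ring
        · obtain ⟨j, hj⟩ : ∃ j, j + 1 = l := ⟨l - 1, by omega⟩
          refine ⟨g j • AD G j, ?_, ?_⟩
          · rw [Matrix.mul_smul]
            exact (h2 j hj M hM).smul _
          · ext x y
            simp only [Matrix.sub_apply, Matrix.smul_apply, smul_eq_mul]
            rcases lt_or_ge (G.dist x y) j with h3 | h3
            · rw [hg1 x y (by omega)]
              simp only [AD, Matrix.of_apply]
              rw [if_neg (by omega), if_neg (by omega), if_neg (by omega)]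
              ring
            · rcases Nat.lt_or_ge (l + 1) (G.dist x y) with h4 | h4
              · rw [hg2 x y h4]
                simp only [AD, Matrix.of_apply]
                rw [if_neg (by omega), if_neg (by omega), if_neg (by omega)]
                ring
              · have h5 : G.dist x y = j ∨ G.dist x y = l ∨ G.dist x y = l + 1 := by omega
                rw [hg]
                simp only [AD, Matrix.of_apply]
                rcases h5 with h5 | h5 | h5
                · rw [h5, if_neg (by omega), if_neg (by omega), if_pos rfl]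
                  ring
                · rw [h5, if_neg (by omega), if_pos rfl, if_neg (by omega)]
                  ring
                · rw [h5, if_pos rfl, if_neg (by omega), if_neg (by omega)]
                  ring
      have e : M * AD G (l + 1) = (g (l + 1))⁻¹ •
          (M * AD G l * G.adjMatrix ℝ - g l • (M * AD G l) - M * N) := by
        have e1 : M * (g (l + 1) • AD G (l + 1)) =
            M * AD G l * G.adjMatrix ℝ - g l • (M * AD G l) - M * N := by
          rw [hN2, Matrix.mul_sub, Matrix.mul_sub, Matrix.mul_smul, Matrix.mul_assoc]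
        rw [← e1, Matrix.mul_smul, smul_smul, inv_mul_cancel₀ hc0, one_smul]
      rw [e]
      exact (((rad_mulA h (h1 M hM)).sub ((h1 M hM).smul _)).sub hN1).smul _
    · push Not at hex
      have : AD G (l + 1) = 0 := by
        ext x y
        simp only [AD, Matrix.of_apply, Matrix.zero_apply]
        rw [if_neg (hex x y)]
      rw [this, Matrix.mul_zero]
      intro x y x' y' _
      rfl
  have h0 : ∀ M : Matrix V V ℝ, Rad G M → Rad G (M * AD G 0) := by
    intro M hM
    rw [AD_zero hc, Matrix.mul_one]
    exact hM
  intro l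
  induction l with
  | zero => exact ⟨h0, step 0 h0 (fun j hj => by omega)⟩
  | succ l ih =>
    refine ⟨ih.2, step (l + 1) ih.2 ?_⟩
    intro j hj
    have : j = l := by omega
    rw [this]
    exact ih.1

/-- **The literal definition gives all intersection numbers.** -/
theorem DR_of_LR (hc : G.Connected) (h : LR G) : DR G := by
  intro u v u' v' e j k
  have h1 := (rad_mulAD hc h k).1 _ (rad_AD (G := G) j) u v u' v' e
  have h2 : ∀ a b : V, (AD G j * AD G k) a b =
      ((Finset.univ.filter (fun w => G.dist a w = j ∧ G.dist b w = k)).card : ℝ) := by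
    intro a b
    rw [Matrix.mul_apply, Finset.card_filter]
    push_cast
    refine Finset.sum_congr rfl fun w _ => ?_
    simp only [AD, Matrix.of_apply]
    rw [G.dist_comm (u := w) (v := b)]
    by_cases h3 : G.dist a w = j
    · by_cases h4 : G.dist b w = k
      · simp [h3, h4]
      · simp [h3, h4]
    · simp [h3]
  rw [h2, h2] at h1
  exact_mod_cast h1

end Pool.Agent.AMM
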