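import Mathlib

/-! Radial matrices of a distance-regular graph. -/

set_option autoImplicit false
set_option linter.unusedSectionVars false
set_option linter.unusedFintypeInType false
set_option linter.unusedDecidableInType false

namespace Pool.Agent.AMM

open Finset Matrix

variable {V : Type} [Fintype V] [DecidableEq V] (G : SimpleGraph V) [DecidableRel G.Adj]

/-- distance-regularity, as in the frozen statement -/
def DR : Prop := ∀ u v u' v' : V, G.dist u v = G.dist u' v' → ∀ j k : ℕ,
        (Finset.univ.filter (fun w => G.dist u w = j ∧ G.dist v w = k)).card =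
        (Finset.univ.filter (fun w => G.dist u' w = j ∧ G.dist v' w = k)).card

/-- radial matrices: the entry depends only on the distance -/
def Rad (M : Matrix V V ℝ) : Prop :=
  ∀ x y x' y', G.dist x y = G.dist x' y' → M x y = M x' y'

variable {G}

/-- General principle. -/
lemma gp (h : DR G) {u v u' v' : V} (e : G.dist u v = G.dist u' v') (F : ℕ → ℕ → ℝ) :
    ∑ w, F (G.dist u w) (G.dist v w) = ∑ w, F (G.dist u' w) (G.dist v' w) := by
  have key : (Finset.univ.val.map (fun w => (G.dist u w, G.dist v w)))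
      = Finset.univ.val.map (fun w => (G.dist u' w, G.dist v' w)) := by
    ext ⟨j, k⟩
    rw [Multiset.count_map, Multiset.count_map]
    have := h u v u' v' e j k
    simp only [Finset.card, Finset.filter] at this
    simp only [Prod.mk.injEq]
    convert this using 4 <;> exact eq_comm
  have := congrArg (fun m => (m.map (fun p => F p.1 p.2)).sum) key
  simpa [Multiset.map_map, Function.comp_def] using this

lemma Rad.fn {M : Matrix V V ℝ} (hM : Rad G M) :
    ∃ f : ℕ → ℝ, ∀ x y, M x y = f (G.dist x y) := by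
  classical
  refine ⟨fun i => if h : ∃ p : V × V, G.dist p.1 p.2 = i then M h.choose.1 h.choose.2 else 0, ?_⟩
  intro x y
  have h : ∃ p : V × V, G.dist p.1 p.2 = G.dist x y := ⟨(x, y), rfl⟩
  simp only [dif_pos h]
  exact hM _ _ _ _ h.choose_spec.symm

lemma Rad.symm {M : Matrix V V ℝ} (hM : Rad G M) (x y : V) : M x y = M y x :=
  hM _ _ _ _ G.dist_comm

lemma Rad.mul (h : DR G) {M N : Matrix V V ℝ} (hM : Rad G M) (hN : Rad G N) :
    Rad G (M * N) := by
  obtain ⟨f, hf⟩ := hM.fn
  obtain ⟨g, hg⟩ := hN.fn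
  intro x y x' y' e
  rw [Matrix.mul_apply, Matrix.mul_apply]
  have := gp h e (fun i j => f i * g j)
  calc ∑ j, M x j * N j y = ∑ w, f (G.dist x w) * g (G.dist y w) := by
        refine Finset.sum_congr rfl fun w _ => ?_
        rw [hf, hg, G.dist_comm (u := w)]
    _ = ∑ w, f (G.dist x' w) * g (G.dist y' w) := this
    _ = _ := by
        refine Finset.sum_congr rfl fun w _ => ?_
        rw [hf, hg, G.dist_comm (u := w)]

lemma Rad.comm (h : DR G) {M N : Matrix V V ℝ} (hM : Rad G M) (hN : Rad G N) :
    M * N = N * M := by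
  obtain ⟨f, hf⟩ := hM.fn
  obtain ⟨g, hg⟩ := hN.fn
  ext x y
  rw [Matrix.mul_apply, Matrix.mul_apply]
  have := gp h (G.dist_comm (u := x) (v := y)) (fun i j => f i * g j)
  calc ∑ j, M x j * N j y = ∑ w, f (G.dist x w) * g (G.dist y w) := by
        refine Finset.sum_congr rfl fun w _ => ?_
        rw [hf, hg, G.dist_comm (u := w)]
    _ = ∑ w, f (G.dist y w) * g (G.dist x w) := this
    _ = _ := by
        refine Finset.sum_congr rfl fun w _ => ?_
        rw [hf, hg, G.dist_comm (u := w), mul_comm]

lemma Rad.add {M N : Matrix V V ℝ} (hM : Rad G M) (hN : Rad G N) : Rad G (M + N) := by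
  intro x y x' y' e
  simp [hM _ _ _ _ e, hN _ _ _ _ e]

lemma Rad.sub {M N : Matrix V V ℝ} (hM : Rad G M) (hN : Rad G N) : Rad G (M - N) := by
  intro x y x' y' e
  simp [hM _ _ _ _ e, hN _ _ _ _ e]

lemma Rad.smul {M : Matrix V V ℝ} (c : ℝ) (hM : Rad G M) : Rad G (c • M) := by
  intro x y x' y' e
  simp [hM _ _ _ _ e]

lemma Rad.hadamard {M N : Matrix V V ℝ} (hM : Rad G M) (hN : Rad G N) :
    Rad G (Matrix.hadamard M N) := by
  intro x y x' y' e
  simp [hM _ _ _ _ e, hN _ _ _ _ e]

lemma Rad.sum {ι : Type} {s : Finset ι} {M : ι → Matrix V V ℝ} (hM : ∀ i ∈ s, Rad G (M i)) :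
    Rad G (∑ i ∈ s, M i) := by
  intro x y x' y' e
  rw [Matrix.sum_apply, Matrix.sum_apply]
  exact Finset.sum_congr rfl fun i hi => hM i hi _ _ _ _ e

lemma rad_one (hc : G.Connected) : Rad G (1 : Matrix V V ℝ) := by
  intro x y x' y' e
  have h1 : x = y ↔ x' = y' := by
    rw [← hc.dist_eq_zero_iff, ← hc.dist_eq_zero_iff, e]
  by_cases hxy : x = y
  · rw [Matrix.one_apply, Matrix.one_apply, if_pos hxy, if_pos (h1.1 hxy)]
  · rw [Matrix.one_apply, Matrix.one_apply, if_neg hxy, if_neg (fun h => hxy (h1.2 h))]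

lemma rad_adj : Rad G (G.adjMatrix ℝ) := by
  intro x y x' y' e
  rw [SimpleGraph.adjMatrix_apply, SimpleGraph.adjMatrix_apply]
  have h1 : G.Adj x y ↔ G.Adj x' y' := by
    rw [← SimpleGraph.dist_eq_one_iff_adj, ← SimpleGraph.dist_eq_one_iff_adj, e]
  by_cases hxy : G.Adj x y
  · rw [if_pos hxy, if_pos (h1.1 hxy)]
  · rw [if_neg hxy, if_neg (fun h => hxy (h1.2 h))]

/-- distance matrices -/
noncomputable def AD (G : SimpleGraph V) (l : ℕ) : Matrix V V ℝ :=
  Matrix.of fun x y => if G.dist x y = l then 1 else 0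

lemma rad_AD (l : ℕ) : Rad G (AD G l) := by
  intro x y x' y' e
  simp [AD, e]

/-- all ones matrix -/
noncomputable def JJ (V : Type) : Matrix V V ℝ := Matrix.of fun _ _ => 1

lemma rad_JJ : Rad G (JJ V) := by
  intro x y x' y' e
  simp [JJ]

/-- Lemma U. -/
lemma lemmaU (hc : G.Connected) {F : Matrix V V ℝ} (hF : Rad G F) {θ : ℝ}
    (hA : F * G.adjMatrix ℝ = θ • F) (h0 : ∀ x, F x x = 0) : F = 0 := by
  have key : ∀ i : ℕ, ∀ x y, G.dist x y ≤ i → F x y = 0 := by
    intro i
    induction i with
    | zero =>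
      intro x y hxy
      have : x = y := hc.dist_eq_zero_iff.1 (Nat.le_zero.1 hxy)
      rw [← this]; exact h0 x
    | succ i ih =>
      intro x y hxy
      rcases Nat.lt_or_ge (G.dist x y) (i + 1) with h | h
      · exact ih x y (by omega)
      have hd : G.dist x y = i + 1 := le_antisymm hxy h
      -- a neighbour y' of y at distance i from x
      obtain ⟨p, hp⟩ := hc.exists_walk_length_eq_dist y x
      have hlen : p.length = i + 1 := by rw [hp, G.dist_comm, hd]
      obtain ⟨y', hadj, q, hq⟩ : ∃ y', G.Adj y y' ∧ ∃ q : G.Walk y' x, q.length = i := by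
        cases p with
        | nil => simp at hlen
        | cons hadj q => exact ⟨_, hadj, q, by simpa using hlen⟩
      have hxy' : G.dist x y' ≤ i := by
        rw [G.dist_comm]; exact hq ▸ SimpleGraph.dist_le q
      have e := congrFun (congrFun hA x) y'
      rw [Matrix.mul_apply, Matrix.smul_apply, ih x y' hxy', smul_zero] at e
      have e2 : ∑ w, F x w * G.adjMatrix ℝ w y'
          = ∑ w, (if G.Adj w y' ∧ G.dist x w = i + 1 then F x y else 0) := by
        refine Finset.sum_congr rfl fun w _ => ?_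
        rw [SimpleGraph.adjMatrix_apply]
        by_cases hw : G.Adj w y'
        · by_cases hw2 : G.dist x w = i + 1
          · rw [if_pos hw, if_pos ⟨hw, hw2⟩, mul_one]
            exact hF _ _ _ _ (by rw [hw2, hd])
          · rw [if_pos hw, if_neg (fun h => hw2 h.2), mul_one]
            apply ih
            have h1 : G.dist x w ≤ G.dist x y' + G.dist y' w := hc.dist_triangle
            have h2 : G.dist y' w = 1 := SimpleGraph.dist_eq_one_iff_adj.2 hw.symm
            omega
        · rw [if_neg hw, if_neg (fun h => hw h.1), mul_zero]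
      rw [e2, ← Finset.sum_filter, Finset.sum_const, nsmul_eq_mul] at e
      have hpos : 0 < (Finset.univ.filter fun w => G.Adj w y' ∧ G.dist x w = i + 1).card :=
        Finset.card_pos.2 ⟨y, by simp [hadj, hd]⟩
      rcases mul_eq_zero.1 e with h | h
      · exact absurd (Nat.cast_eq_zero.1 h) hpos.ne'
      · exact h
  ext x y
  exact key _ x y le_rfl

end Pool.Agent.AMM
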