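import Pool.Agent.AMM.Cls

/-! The rank of the average mixing matrix of a distance-regular graph. -/

set_option autoImplicit false
set_option linter.unusedSectionVars false
set_option linter.unusedFintypeInType false
set_option linter.unusedDecidableInType false

namespace Pool.Agent.AMM

open Finset Matrix

variable {V : Type} [Fintype V] [DecidableEq V] {G : SimpleGraph V} [DecidableRel G.Adj]

lemma rank_ker (M : Matrix V V ℝ) :
    M.rank + Module.finrank ℝ (LinearMap.ker M.mulVecLin) = Fintype.card V := by
  have h := LinearMap.finrank_range_add_finrank_ker M.mulVecLin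
  rw [Module.finrank_fintype_fun_eq_card] at h
  exact h

lemma mem_ker {M : Matrix V V ℝ} {z : V → ℝ} : z ∈ LinearMap.ker M.mulVecLin ↔ M.mulVec z = 0 := by
  rw [LinearMap.mem_ker, Matrix.mulVecLin_apply]

/-- one vertex at distance `d` from each vertex: the rank is half the number of vertices -/
lemma rank_unique (hc : G.Connected) {d : ℕ} (hd0 : 0 < d) {M : Matrix V V ℝ}
    (hM : ∀ z : V → ℝ, M.mulVec z = 0 ↔ Alt G d z) (hu : ∀ x, ∃! y, G.dist x y = d) :
    2 * M.rank = Fintype.card V := by
  classical
  choose σ hσ1 hσ2 using hu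
  simp only at hσ1 hσ2
  have hσσ : ∀ x, σ (σ x) = x := by
    intro x
    refine (hσ2 (σ x) x ?_).symm
    rw [G.dist_comm]
    exact hσ1 x
  have hσne : ∀ x, σ x ≠ x := by
    intro x h
    have := hσ1 x
    rw [h, SimpleGraph.dist_self] at this
    omega
  set e := Fintype.equivFin V with he
  set S : Finset V := Finset.univ.filter (fun x => e x < e (σ x)) with hS
  have hnS : ∀ x, x ∉ S ↔ σ x ∈ S := by
    intro x
    simp only [hS, Finset.mem_filter, Finset.mem_univ, true_and, hσσ, not_lt]
    constructor
    · intro h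
      exact lt_of_le_of_ne h (fun h' => hσne x (e.injective h'))
    · exact fun h => h.le
  have hcard : 2 * S.card = Fintype.card V := by
    have h1 : S.card + (Finset.univ.filter (fun x => ¬ (e x < e (σ x)))).card = Fintype.card V := by
      rw [hS, Finset.card_filter_add_card_filter_not, Finset.card_univ]
    have h2 : S.card = (Finset.univ.filter (fun x => ¬ (e x < e (σ x)))).card := by
      refine Finset.card_bij (fun x _ => σ x) ?_ ?_ ?_
      · intro x hx
        rw [Finset.mem_filter]
        refine ⟨Finset.mem_univ _, ?_⟩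
        rw [hσσ]
        exact not_lt.2 (Finset.mem_filter.1 hx).2.le
      · intro x _ y _ hxy
        rw [← hσσ x, hxy, hσσ]
      · intro y hy
        refine ⟨σ y, ?_, hσσ y⟩
        have : y ∉ S := fun h => (Finset.mem_filter.1 hy).2 (Finset.mem_filter.1 h).2
        exact (hnS y).1 this
    omega
  have hker : Module.finrank ℝ (LinearMap.ker M.mulVecLin) = S.card := by
    let L : LinearMap.ker M.mulVecLin →ₗ[ℝ] (S → ℝ) :=
      { toFun := fun z x => z.1 x.1
        map_add' := fun z w => rfl
        map_smul' := fun c z => rfl }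
    have hinj : Function.Injective L := by
      rw [injective_iff_map_eq_zero]
      intro z hz
      have hz' : Alt G d z.1 := (hM z.1).1 (mem_ker.1 z.2)
      have h1 : ∀ x ∈ S, z.1 x = 0 := fun x hx => congrFun hz ⟨x, hx⟩
      apply Subtype.ext
      funext x
      by_cases hx : x ∈ S
      · exact h1 x hx
      · have h2 := h1 (σ x) ((hnS x).1 hx)
        have h3 := hz' x (σ x) (hσ1 x)
        show z.1 x = 0
        linarith
    have hsur : Function.Surjective L := by
      intro f
      set F : V → ℝ := fun x => if h : x ∈ S then f ⟨x, h⟩ else 0 with hF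
      set z : V → ℝ := fun x => if x ∈ S then F x else - F (σ x) with hz
      have hzalt : Alt G d z := by
        intro x y hxy
        have hy : y = σ x := hσ2 x y hxy
        rw [hy]
        by_cases hx : x ∈ S
        · have h1 : σ x ∉ S := by
            intro h
            exact (hnS x).2 h hx
          simp only [hz]
          rw [if_neg h1, if_pos hx, hσσ]
        · have h1 : σ x ∈ S := (hnS x).1 hx
          simp only [hz]
          rw [if_pos h1, if_neg hx, neg_neg]
      refine ⟨⟨z, mem_ker.2 ((hM z).2 hzalt)⟩, ?_⟩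
      funext x
      show z x.1 = f x
      simp only [hz, hF]
      rw [if_pos x.2, dif_pos x.2]
    have h1 := (LinearEquiv.ofBijective L ⟨hinj, hsur⟩).finrank_eq
    rw [h1, Module.finrank_fintype_fun_eq_card, Fintype.card_coe]
  have := rank_ker M
  omega

/-- the alternating vectors when no nonzero one exists -/
lemma rank_full {d : ℕ} {M : Matrix V V ℝ}
    (hM : ∀ z : V → ℝ, M.mulVec z = 0 ↔ Alt G d z) (h0 : ∀ z : V → ℝ, Alt G d z → z = 0) :
    M.rank = Fintype.card V := by
  have hker : LinearMap.ker M.mulVecLin = ⊥ := by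
    rw [eq_bot_iff]
    intro z hz
    rw [mem_ker] at hz
    rw [Submodule.mem_bot]
    exact h0 z ((hM z).1 hz)
  have := rank_ker M
  rw [hker, finrank_bot] at this
  omega

lemma rank_line {d : ℕ} {M : Matrix V V ℝ}
    (hM : ∀ z : V → ℝ, M.mulVec z = 0 ↔ Alt G d z) {χ : V → ℝ} (hχ : Alt G d χ) (hχ0 : χ ≠ 0)
    (h1 : ∀ z : V → ℝ, Alt G d z → ∃ c : ℝ, z = c • χ) :
    M.rank + 1 = Fintype.card V := by
  have hker : LinearMap.ker M.mulVecLin = Submodule.span ℝ {χ} := by
    apply le_antisymm
    · intro z hz
      rw [mem_ker] at hz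
      obtain ⟨c, hc⟩ := h1 z ((hM z).1 hz)
      rw [hc]
      exact Submodule.smul_mem _ _ (Submodule.mem_span_singleton_self χ)
    · rw [Submodule.span_le]
      intro z hz
      rw [Set.mem_singleton_iff] at hz
      rw [SetLike.mem_coe, mem_ker, hz]
      exact (hM χ).2 hχ
  have := rank_ker M
  rw [hker, finrank_span_singleton hχ0] at this
  exact this

/-- bipartite graphs of odd diameter -/
lemma rank_bip (hc : G.Connected) (hd : DR G) {d : ℕ} (hle : ∀ x y, G.dist x y ≤ d)
    {a b : V} (hab : G.dist a b = d) {M : Matrix V V ℝ}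
    (hM : ∀ z : V → ℝ, M.mulVec z = 0 ↔ Alt G d z)
    (hk : ∃ x y y', y ≠ y' ∧ G.dist x y = d ∧ G.dist x y' = d)
    (hcol : G.Colorable 2) (hodd : Odd d) : M.rank + 1 = Fintype.card V := by
  classical
  have c : G.Coloring Bool := hcol.toColoring (by simp)
  set χ : V → ℝ := fun x => if c x = c a then 1 else -1 with hχdef
  have hwalk : ∀ x y : V, ∀ p : G.Walk x y, (Even p.length ↔ c x = c y) := by
    intro x y p
    rw [c.even_length_iff_congr p]
    cases hx : c x <;> cases hy : c y <;> simp
  have hχ : Alt G d χ := by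
    intro x y hxy
    obtain ⟨p, hp⟩ := hc.exists_walk_length_eq_dist x y
    have h1 : ¬ Even p.length := by
      rw [hp, hxy, Nat.not_even_iff_odd]
      exact hodd
    rw [hwalk x y p] at h1
    simp only [hχdef]
    by_cases h2 : c x = c a
    · rw [if_neg (fun h3 => h1 (h2.trans h3.symm)), if_pos h2]
    · by_cases h3 : c y = c a
      · rw [if_pos h3, if_neg h2, neg_neg]
      · exfalso
        revert h1 h2 h3
        cases c x <;> cases c y <;> cases c a <;> simp
  have hχa : χ a ≠ 0 := by
    simp only [hχdef, if_true]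
    exact one_ne_zero
  have hEd : ∀ x y, G.dist x y = d → ¬ EV G d x y := fun x y hxy => not_EV_d hc hd hχ hχa hxy
  obtain ⟨_, _, hev⟩ := cls hc hd hle hab hEd hk
  refine rank_line hM hχ (fun h => hχa (by rw [h]; rfl)) ?_
  intro z hz
  refine ⟨z a, ?_⟩
  funext y
  rw [Pi.smul_apply, smul_eq_mul]
  obtain ⟨p, hp⟩ := hc.exists_walk_length_eq_dist a y
  by_cases h1 : c y = c a
  · have h2 := EV_alt hz (hev a y p ((hwalk a y p).2 h1.symm))
    rw [← h2]
    simp only [hχdef]
    rw [if_pos h1, mul_one]
  · -- through the vertex b at distance d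
    obtain ⟨q, hq⟩ := hc.exists_walk_length_eq_dist a b
    have h2 : c a ≠ c b := by
      intro h3
      have h4 := (hwalk a b q).2 h3
      rw [hq, hab] at h4
      exact (Nat.not_even_iff_odd.2 hodd) h4
    have h3 : c b = c y := by
      revert h1 h2
      cases c a <;> cases c b <;> cases c y <;> simp
    obtain ⟨r, _⟩ := hc.exists_walk_length_eq_dist b y
    have h4 := EV_alt hz (hev b y r ((hwalk b y r).2 h3))
    rw [← h4, hz a b hab]
    simp only [hχdef]
    rw [if_neg h1]
    ring

/-- the remaining graphs -/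
lemma rank_rest (hc : G.Connected) (hd : DR G) {d : ℕ} (hle : ∀ x y, G.dist x y ≤ d)
    {a b : V} (hab : G.dist a b = d) {M : Matrix V V ℝ}
    (hM : ∀ z : V → ℝ, M.mulVec z = 0 ↔ Alt G d z)
    (hk : ∃ x y y', y ≠ y' ∧ G.dist x y = d ∧ G.dist x y' = d)
    (hno : ¬ (G.Colorable 2 ∧ Odd d)) : M.rank = Fintype.card V := by
  refine rank_full hM ?_
  intro z hz
  by_contra hne
  obtain ⟨u, hu⟩ := Function.ne_iff.1 hne
  have hEd : ∀ x y, G.dist x y = d → ¬ EV G d x y := fun x y hxy => not_EV_d hc hd hz hu hxy
  obtain ⟨h1, h2, _⟩ := cls hc hd hle hab hEd hk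
  exact hno ⟨h1, h2⟩

lemma two_of_not_unique (hd : DR G) {d : ℕ} {a b : V} (hab : G.dist a b = d)
    (hu : ¬ ∀ x, ∃! y, G.dist x y = d) :
    ∃ x y y', y ≠ y' ∧ G.dist x y = d ∧ G.dist x y' = d := by
  by_contra hcon
  push Not at hcon
  apply hu
  intro x
  obtain ⟨y, hy⟩ := exd hd a b x
  rw [hab] at hy
  refine ⟨y, hy, ?_⟩
  intro y' hy'
  by_contra hne
  exact hcon x y' y hne hy' hy

end Pool.Agent.AMM
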