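import Pool.Agent.AMM.Radial

/-! Spectral idempotents. -/

set_option autoImplicit false
set_option linter.unusedSectionVars false
set_option linter.unusedFintypeInType false
set_option linter.unusedDecidableInType false

namespace Pool.Agent.AMM

open Finset Matrix

variable {V : Type} [Fintype V] [DecidableEq V] {G : SimpleGraph V} [DecidableRel G.Adj]

/-- the spectral data of the frozen statement -/
structure Spec (A : Matrix V V ℝ) (s : Finset ℝ) (E : ℝ → Matrix V V ℝ) : Prop where
  idem : ∀ θ ∈ s, E θ * E θ = E θ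
  orth : ∀ θ ∈ s, ∀ θ' ∈ s, θ ≠ θ' → E θ * E θ' = 0
  one : (∑ θ ∈ s, E θ) = 1
  dec : A = ∑ θ ∈ s, θ • E θ

variable {A : Matrix V V ℝ} {s : Finset ℝ} {E : ℝ → Matrix V V ℝ}

lemma Spec.mulA (h : Spec A s E) {θ : ℝ} (hθ : θ ∈ s) : E θ * A = θ • E θ := by
  rw [h.dec, Finset.mul_sum, Finset.sum_eq_single θ]
  · rw [Matrix.mul_smul, h.idem θ hθ]
  · intro b hb hne
    rw [Matrix.mul_smul, h.orth θ hθ b hb hne.symm, smul_zero]
  · intro h'; exact absurd hθ h'

lemma Spec.Amul (h : Spec A s E) {θ : ℝ} (hθ : θ ∈ s) : A * E θ = θ • E θ := by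
  rw [h.dec, Finset.sum_mul, Finset.sum_eq_single θ]
  · rw [Matrix.smul_mul, h.idem θ hθ]
  · intro b hb hne
    rw [Matrix.smul_mul, h.orth b hb θ hθ hne, smul_zero]
  · intro h'; exact absurd hθ h'

lemma Spec.pow (h : Spec A s E) (m : ℕ) : A ^ m = ∑ θ ∈ s, θ ^ m • E θ := by
  induction m with
  | zero => simp [h.one]
  | succ m ih =>
    rw [pow_succ, ih, Finset.sum_mul]
    refine Finset.sum_congr rfl fun θ hθ => ?_
    rw [Matrix.smul_mul, h.mulA hθ, smul_smul, pow_succ]

lemma Spec.aeval (h : Spec A s E) (p : Polynomial ℝ) :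
    Polynomial.aeval A p = ∑ θ ∈ s, p.eval θ • E θ := by
  induction p using Polynomial.induction_on' with
  | add p q hp hq =>
    rw [map_add, hp, hq, ← Finset.sum_add_distrib]
    refine Finset.sum_congr rfl fun θ _ => ?_
    rw [Polynomial.eval_add, add_smul]
  | monomial n a =>
    rw [Polynomial.aeval_monomial, h.pow, Finset.mul_sum]
    refine Finset.sum_congr rfl fun θ _ => ?_
    rw [Polynomial.eval_monomial, ← Algebra.smul_def, smul_smul]

lemma rad_aeval (hc : G.Connected) (hd : DR G) (p : Polynomial ℝ) :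
    Rad G (Polynomial.aeval (G.adjMatrix ℝ) p) := by
  induction p using Polynomial.induction_on' with
  | add p q hp hq => rw [map_add]; exact hp.add hq
  | monomial n a =>
    rw [Polynomial.aeval_monomial, ← Algebra.smul_def]
    refine Rad.smul a ?_
    induction n with
    | zero => rw [pow_zero]; exact rad_one hc
    | succ n ih => rw [pow_succ]; exact Rad.mul hd ih rad_adj

lemma Spec.rad (hc : G.Connected) (hd : DR G) (h : Spec (G.adjMatrix ℝ) s E) {θ : ℝ} (hθ : θ ∈ s) :
    Rad G (E θ) := by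
  have e : E θ = Polynomial.aeval (G.adjMatrix ℝ) (Lagrange.basis s id θ) := by
    rw [h.aeval, Finset.sum_eq_single θ]
    · have := Lagrange.eval_basis_self (v := (id : ℝ → ℝ)) (s := s) (Function.injective_id.injOn) hθ
      simp only [id] at this
      rw [this, one_smul]
    · intro b hb hne
      have := Lagrange.eval_basis_of_ne (v := (id : ℝ → ℝ)) (s := s) hne.symm hb
      simp only [id] at this
      rw [this, zero_smul]
    · intro h'; exact absurd hθ h'
  rw [e]
  exact rad_aeval hc hd _

/-- a zero of the sum of Schur squares is killed by every Schur square, and more -/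
lemma Spec.kill (h : Spec A s E) (hs : ∀ θ ∈ s, ∀ x y, E θ x y = E θ y x) {z : V → ℝ}
    (hz : (∑ θ ∈ s, Matrix.hadamard (E θ) (E θ)).mulVec z = 0) {θ : ℝ} (hθ : θ ∈ s) (x : V) :
    ∑ y, E θ x y * E θ x y * z y = 0 := by
  -- F θ = E D E
  set F : ℝ → Matrix V V ℝ := fun θ => E θ * Matrix.diagonal z * E θ with hF
  have hq : ∀ θ ∈ s, ∑ x, ∑ y, F θ x y * F θ x y = ∑ x, ∑ y, z x * (E θ x y * E θ x y) * z y := by
    intro θ hθ
    have hT : (E θ)ᵀ = E θ := by ext x y; exact hs θ hθ y x
    have hFT : (F θ)ᵀ = F θ := by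
      simp only [hF, Matrix.transpose_mul, hT, Matrix.diagonal_transpose, Matrix.mul_assoc]
    have e1 : ∑ x, ∑ y, F θ x y * F θ x y = Matrix.trace (F θ * F θ) := by
      simp only [Matrix.trace, Matrix.diag, Matrix.mul_apply]
      refine Finset.sum_congr rfl fun x _ => Finset.sum_congr rfl fun y _ => ?_
      congr 1
      exact (congrFun (congrFun hFT x) y).symm ▸ rfl
    have e2 : Matrix.trace (F θ * F θ)
        = Matrix.trace (Matrix.diagonal z * E θ * (Matrix.diagonal z * E θ)) := by
      have : F θ * F θ = E θ * (Matrix.diagonal z * E θ * (Matrix.diagonal z * E θ)) := by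
        simp only [hF]
        calc E θ * Matrix.diagonal z * E θ * (E θ * Matrix.diagonal z * E θ)
            = E θ * Matrix.diagonal z * (E θ * E θ) * Matrix.diagonal z * E θ := by
              simp only [Matrix.mul_assoc]
          _ = _ := by rw [h.idem θ hθ]; simp only [Matrix.mul_assoc]
      rw [this, Matrix.trace_mul_comm]
      congr 1
      calc Matrix.diagonal z * E θ * (Matrix.diagonal z * E θ) * E θ
          = Matrix.diagonal z * E θ * Matrix.diagonal z * (E θ * E θ) := by
            simp only [Matrix.mul_assoc]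
        _ = _ := by rw [h.idem θ hθ]; simp only [Matrix.mul_assoc]
    rw [e1, e2]
    simp only [Matrix.trace, Matrix.diag]
    refine Finset.sum_congr rfl fun x _ => ?_
    rw [Matrix.mul_apply]
    refine Finset.sum_congr rfl fun y _ => ?_
    rw [Matrix.diagonal_mul, Matrix.diagonal_mul, hs θ hθ y x]; ring
  have hsum : ∑ θ ∈ s, ∑ x, ∑ y, F θ x y * F θ x y = 0 := by
    rw [Finset.sum_congr rfl hq]
    have e : ∑ x, z x * ((∑ θ ∈ s, Matrix.hadamard (E θ) (E θ)).mulVec z) x = 0 := by
      rw [hz]; simp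
    rw [← e, Finset.sum_comm]
    refine Finset.sum_congr rfl fun x _ => ?_
    rw [Matrix.mulVec, dotProduct, Finset.mul_sum, Finset.sum_comm]
    refine Finset.sum_congr rfl fun y _ => ?_
    rw [Matrix.sum_apply, Finset.sum_mul, Finset.mul_sum]
    refine Finset.sum_congr rfl fun θ _ => ?_
    rw [Matrix.hadamard_apply]; ring
  have hF0 : F θ x x = 0 := by
    have hnn : ∀ θ ∈ s, 0 ≤ ∑ x, ∑ y, F θ x y * F θ x y := fun θ _ =>
      Finset.sum_nonneg fun x _ => Finset.sum_nonneg fun y _ => mul_self_nonneg _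
    have h1 := (Finset.sum_eq_zero_iff_of_nonneg hnn).1 hsum θ hθ
    have h2 := (Finset.sum_eq_zero_iff_of_nonneg (fun x _ =>
      Finset.sum_nonneg fun y _ => mul_self_nonneg _)).1 h1 x (Finset.mem_univ _)
    have h3 := (Finset.sum_eq_zero_iff_of_nonneg (fun y _ => mul_self_nonneg _)).1 h2 x
      (Finset.mem_univ _)
    exact mul_self_eq_zero.1 h3
  have e : F θ x x = ∑ y, E θ x y * E θ x y * z y := by
    simp only [hF]
    rw [Matrix.mul_apply]
    refine Finset.sum_congr rfl fun y _ => ?_
    rw [Matrix.mul_diagonal, hs θ hθ y x]; ring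
  rw [← e, hF0]

end Pool.Agent.AMM
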